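import Pool.Agent.K7.H38.TW.Words

set_option autoImplicit false

/-!
# Reduction of a twisted double to a positive word
-/

namespace Pool.Agent.K7.H38.TW

open Pool.Agent.Y479.LS Aut Pool.Agent.K7.H38.KN

section

variable {Q : Type} [Group Q] {X Y : Q}

theorem dd_pw (h : Br X Y) : ∀ l : List Bool, Commute (dd X Y) (pw X Y l)
  | [] => Commute.one_right _
  | true :: l => (dd_pw h l).mul_right (dd_x h).inv_right
  | false :: l => (dd_pw h l).mul_right (dd_y h)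

theorem dd_val (h : Br X Y) : ∀ l : List (Bool × ℤ), Commute (dd X Y) (val X Y l)
  | [] => Commute.one_right _
  | (true, n) :: l => (dd_val h l).mul_right ((dd_x h).zpow_right n)
  | (false, n) :: l => (dd_val h l).mul_right ((dd_y h).zpow_right n)

end

section

variable {G : Type} [Group G]

theorem dd_mem_mp (H : Subgroup G) {s : G × G} (h : s.1 ∈ H ∧ s.2 ∈ H) :
    (dd mX mY s).1 ∈ H ∧ (dd mX mY s).2 ∈ H := by
  obtain ⟨A, B⟩ := s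
  rw [dd_m]
  exact ⟨H.mul_mem (H.mul_mem (H.mul_mem h.1 h.2) (H.inv_mem h.1)) (H.inv_mem (H.mul_mem h.1 h.2)),
    H.mul_mem (H.mul_mem (H.mul_mem h.1 h.2) (H.inv_mem h.2)) (H.inv_mem (H.mul_mem h.1 h.2))⟩

theorem dd_inv_mem_mp (H : Subgroup G) {s : G × G} (h : s.1 ∈ H ∧ s.2 ∈ H) :
    ((dd mX mY)⁻¹ s).1 ∈ H ∧ ((dd mX mY)⁻¹ s).2 ∈ H := by
  obtain ⟨A, B⟩ := s
  rw [dd_m_inv]
  have h1 : B * A⁻¹ * B⁻¹ ∈ H := H.mul_mem (H.mul_mem h.2 (H.inv_mem h.1)) (H.inv_mem h.2)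
  refine ⟨h1, ?_⟩
  exact H.mul_mem (H.mul_mem (H.mul_mem (H.mul_mem h.2 h.1) (H.inv_mem h.2)) (H.inv_mem h.1))
    (H.inv_mem h.2)

/-- The data of a twisted double, reduced to a positive word `p`. -/
structure Red (A a l B u : G) where
  p : List Bool
  m : G
  g : G
  v : G
  l' : G
  a' : G
  m' : G
  g' : G
  q : G
  r : G
  k : G
  c : G
  i : ℤ
  hp : false ∈ p
  hs : (m = k * A * k⁻¹ ∧ v = k * a * k⁻¹) ∨ (m = k * A⁻¹ * k⁻¹ ∧ v = k * a⁻¹ * k⁻¹)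
  hc : c = B * l ^ i
  r1 : run p (m, g) = (l, c)
  r2 : run p (m, g * v) = (l', a')
  r3 : run p (m', g') = (l, c * u)
  hl' : l' = q * l⁻¹ * q⁻¹
  hm' : m' = r * m⁻¹ * r⁻¹
  k1 : l' * l = m * g * m⁻¹ * g⁻¹ ∨ l * l' = m * g * m⁻¹ * g⁻¹
  k2 : m' * m = l * c * l⁻¹ * c⁻¹ ∨ m * m' = l * c * l⁻¹ * c⁻¹
  mem : ∀ H : Subgroup G, (m ∈ H ∧ g * v ∈ H) ↔ (m' ∈ H ∧ g' ∈ H)

theorem red {w : List (Bool × ℤ)} (hN : cross w ≠ 0) {s s' : G × G} {A a : G}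
    (ht : Ty A a s s') {l B u : G} {e : ℤ} (he : e = 1 ∨ e = -1) (h1 : runw w s = (l, B))
    (h2 : runw w s' = (dd mX mY ^ e) (l, B * u)) (hu : l * u = u * l) :
    Nonempty (Red A a l B u) := by
  obtain ⟨c, hc⟩ := eqv_val w
  have hl : false ∈ c.l := false_mem hN hc
  have hv : val (mX (G := G)) mY w = c.ev mX mY := hc (Equiv.Perm (G × G)) mX mY br_m
  have hq' : Tz A a ((mX ^ c.j) ((dd mX mY ^ c.k) s)) ((mX ^ c.j) ((dd mX mY ^ c.k) s')) :=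
    (ht.tz.dz c.k).x c.j
  obtain ⟨k, hk⟩ := hq'
  obtain ⟨m, v, hs, ht'⟩ : ∃ m v, ((m = k * A * k⁻¹ ∧ v = k * a * k⁻¹) ∨
      (m = k * A⁻¹ * k⁻¹ ∧ v = k * a⁻¹ * k⁻¹)) ∧
      Ty m v ((mX ^ c.j) ((dd mX mY ^ c.k) s)) ((mX ^ c.j) ((dd mX mY ^ c.k) s')) := by
    rcases hk with h | h
    · exact ⟨_, _, Or.inl ⟨rfl, rfl⟩, h⟩
    · exact ⟨_, _, Or.inr ⟨rfl, rfl⟩, h⟩
  obtain ⟨g, e1, e2, hcm⟩ := ht'
  have hcu : (mX ^ (-c.i)) (l, B * u) = (l, B * l ^ c.i * u) := by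
    rw [mX_zpow]
    simp only [zpow_neg, inv_inv, Prod.mk.injEq, true_and]
    have h4 : Commute (l ^ c.i) u := (show Commute l u from hu).zpow_left _
    rw [mul_assoc, mul_assoc, h4.eq]
  have r1 : run c.l (m, g) = (l, B * l ^ c.i) := by
    have h3 : (mX ^ c.i) (run c.l (m, g)) = (l, B) := by
      rw [← h1, runw_eq, hv, Code.ev, Equiv.Perm.mul_apply, Equiv.Perm.mul_apply,
        Equiv.Perm.mul_apply, e1, pw_m]
    rw [← Equiv.Perm.eq_inv_iff_eq, ← zpow_neg, mX_zpow] at h3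
    rw [h3]
    simp only [zpow_neg, inv_inv]
  have r2 : run c.l (m, g * v) = (dd mX mY ^ e) (l, B * l ^ c.i * u) := by
    have h3 : (mX ^ c.i) (run c.l (m, g * v)) = (dd mX mY ^ e) (l, B * u) := by
      rw [← h2, runw_eq, hv, Code.ev, Equiv.Perm.mul_apply, Equiv.Perm.mul_apply,
        Equiv.Perm.mul_apply, e2, pw_m]
    rw [← Equiv.Perm.eq_inv_iff_eq, ← zpow_neg, ← Equiv.Perm.mul_apply] at h3
    have h4 : (mX : Equiv.Perm (G × G)) ^ (-c.i) * dd mX mY ^ e = dd mX mY ^ e * mX ^ (-c.i) :=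
      (((dd_x br_m).zpow_left e).zpow_right (-c.i)).eq.symm
    rw [h4, Equiv.Perm.mul_apply, hcu] at h3
    exact h3
  set d : G := B * l ^ c.i with hd
  have hcomm : m * g * m⁻¹ * g⁻¹ = l * d * l⁻¹ * d⁻¹ := by
    have h3 := run_comm c.l m g
    rw [r1] at h3
    exact h3.symm
  have hmv : Commute m v := hcm
  have hlu : Commute l u := hu
  have cv : v * m⁻¹ * v⁻¹ = m⁻¹ := by rw [(hmv.inv_left).symm.eq]; group
  have cu : u * l⁻¹ * u⁻¹ = l⁻¹ := by rw [(hlu.inv_left).symm.eq]; group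
  rcases he with rfl | rfl
  · rw [zpow_one, dd_m] at r2
    have r3 : run c.l (((dd mX mY)⁻¹ : Equiv.Perm (G × G)) (m, g * v)) = (l, d * u) := by
      rw [← pw_m, ← Equiv.Perm.mul_apply]
      have h4 : pw (mX (G := G)) mY c.l * (dd mX mY)⁻¹ = (dd mX mY)⁻¹ * pw mX mY c.l :=
        ((dd_pw br_m c.l).inv_left).eq.symm
      rw [h4, Equiv.Perm.mul_apply, pw_m, r2, Equiv.Perm.inv_eq_iff_eq, dd_m]
    refine ⟨⟨c.l, m, g, v, _, _, ((dd mX mY)⁻¹ (m, g * v)).1, ((dd mX mY)⁻¹ (m, g * v)).2,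
      l * (d * u), g * v, k, d, c.i, hl, hs, rfl, r1, r2, r3, rfl, ?_, ?_, ?_, ?_⟩⟩
    · rw [dd_m_inv]
    · left
      rw [hcomm]
      calc l * (d * u) * l⁻¹ * (l * (d * u))⁻¹ * l = l * d * (u * l⁻¹ * u⁻¹) * d⁻¹ := by group
        _ = _ := by rw [cu]
    · right
      rw [← hcomm, dd_m_inv]
      calc m * (g * v * m⁻¹ * (g * v)⁻¹) = m * g * (v * m⁻¹ * v⁻¹) * g⁻¹ := by group
        _ = _ := by rw [cv]
    · intro H
      refine ⟨fun h => dd_inv_mem_mp H h, fun h => ?_⟩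
      have h5 := dd_mem_mp H h
      have h6 : dd mX mY (((dd mX mY)⁻¹ (m, g * v)).1, ((dd mX mY)⁻¹ (m, g * v)).2) = (m, g * v) :=
        (dd mX mY).apply_symm_apply (m, g * v)
      rw [h6] at h5
      exact h5
  · rw [zpow_neg_one, dd_m_inv] at r2
    have r3 : run c.l ((dd mX mY : Equiv.Perm (G × G)) (m, g * v)) = (l, d * u) := by
      rw [← pw_m, ← Equiv.Perm.mul_apply]
      have h4 : pw (mX (G := G)) mY c.l * dd mX mY = dd mX mY * pw mX mY c.l :=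
        (dd_pw br_m c.l).eq.symm
      rw [h4, Equiv.Perm.mul_apply, pw_m, r2, ← Equiv.Perm.eq_inv_iff_eq, dd_m_inv]
    refine ⟨⟨c.l, m, g, v, _, _, ((dd mX mY) (m, g * v)).1, ((dd mX mY) (m, g * v)).2,
      d * u, m * (g * v), k, d, c.i, hl, hs, rfl, r1, r2, r3, rfl, ?_, ?_, ?_, ?_⟩⟩
    · rw [dd_m]
    · right
      rw [hcomm]
      calc l * (d * u * l⁻¹ * (d * u)⁻¹) = l * d * (u * l⁻¹ * u⁻¹) * d⁻¹ := by group
        _ = _ := by rw [cu]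
    · left
      rw [← hcomm, dd_m]
      calc m * (g * v) * m⁻¹ * (m * (g * v))⁻¹ * m = m * g * (v * m⁻¹ * v⁻¹) * g⁻¹ := by group
        _ = _ := by rw [cv]
    · intro H
      refine ⟨fun h => dd_mem_mp H h, fun h => ?_⟩
      have h5 := dd_inv_mem_mp H h
      have h6 : (dd mX mY)⁻¹ ((dd mX mY (m, g * v)).1, (dd mX mY (m, g * v)).2) = (m, g * v) :=
        (dd mX mY).symm_apply_apply (m, g * v)
      rw [h6] at h5
      exact h5

end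

end Pool.Agent.K7.H38.TW
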