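import Pool.Agent.K7.H38.TW.Pub
import Pool.Agent.K7.H38.TW.Red
import Pool.Agent.K7.H38.KN.PChain

set_option autoImplicit false

/-!
# The states of a closed chain of two pieces and two braids
-/

namespace Pool.Agent.K7.H38.TW

open Pool.Agent.Y479.LS Aut Pool.Agent.K7.H39.TB Pool.Agent.K7.H38.KN

section words

variable {G : Type} [Group G]

theorem runw_append (w₁ w₂ : List (Bool × ℤ)) (s : G × G) :
    runw (w₁ ++ w₂) s = runw w₂ (runw w₁ s) := by
  rw [runw_eq, runw_eq, runw_eq, val_append]; rfl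

theorem runw_turn {e : ℤ} (he : e = 0 ∨ e = 1 ∨ e = -1) (s : G × G) :
    runw (turn e) s = (dd mX mY ^ e) s := by
  rw [runw_eq]
  have h : val (mX (G := G)) mY (turn e) = 1 * mX ^ e * mY ^ e * mX ^ e * mX ^ e * mY ^ e * mX ^ e :=
    rfl
  rw [h]
  rcases he with rfl | rfl | rfl
  · simp
  · simp only [zpow_one, dd, one_mul, mul_assoc]
  · simp only [zpow_neg_one, dd, one_mul, mul_assoc, mul_inv_rev]

theorem dd_runw (e : ℤ) (w : List (Bool × ℤ)) (s : G × G) :
    runw w ((dd mX mY ^ e) s) = (dd mX mY ^ e) (runw w s) := by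
  rw [runw_eq, runw_eq, ← Equiv.Perm.mul_apply, ← Equiv.Perm.mul_apply]
  rw [((dd_val (br_m (G := G)) w).zpow_left e).eq]

theorem dd_zpow_mem (H : Subgroup G) (e : ℤ) : ∀ {s : G × G}, s.1 ∈ H ∧ s.2 ∈ H →
    ((dd mX mY ^ e) s).1 ∈ H ∧ ((dd mX mY ^ e) s).2 ∈ H := by
  induction e with
  | zero => intro s h; exact h
  | succ n ih => intro s h; rw [zpow_add_one]; exact ih (dd_mem_mp H h)
  | pred n ih => intro s h; rw [zpow_sub_one]; exact ih (dd_inv_mem_mp H h)

end words

variable {M₁ M₂ : Piece} {w w' : List (Bool × ℤ)}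

theorem chn : 0 < (chain M₁ w M₂ w').length := by rw [clen]; omega

/-- the states of the chain -/
abbrev CS (M₁ : Piece) (w : List (Bool × ℤ)) (M₂ : Piece) (w' : List (Bool × ℤ)) (j : ℕ) :
    PChainGrp (chain M₁ w M₂ w') × PChainGrp (chain M₁ w M₂ w') := pst chn j

theorem cfirst : ∃ f : M₁.P →* PChainGrp (chain M₁ w M₂ w'),
    (CS M₁ w M₂ w' 0).1 = f M₁.A ∧
    CS M₁ w M₂ w' 1 = ((CS M₁ w M₂ w' 0).1, (CS M₁ w M₂ w' 0).2 * (f M₁.a)⁻¹) := by
  obtain ⟨f, h, -⟩ := pstep_general (pix chn 0) (true, M₁)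
    (pget_mid chn [] (w.map ppow ++ (true, M₂) :: w'.map ppow) (true, M₁) rfl)
  obtain ⟨h1, h2, h3⟩ := h rfl
  rw [nx_pix] at h2 h3
  exact ⟨f, h1, Prod.ext h2 h3⟩

theorem csecond : ∃ f : M₂.P →* PChainGrp (chain M₁ w M₂ w'),
    (CS M₁ w M₂ w' (w.length + 1)).1 = f M₂.A ∧
    CS M₁ w M₂ w' (w.length + 2) = ((CS M₁ w M₂ w' (w.length + 1)).1,
      (CS M₁ w M₂ w' (w.length + 1)).2 * (f M₂.a)⁻¹) := by
  have hlen : ((true, M₁) :: w.map ppow).length = w.length + 1 := by simp
  have hg := pget_mid (l := chain M₁ w M₂ w') chn ((true, M₁) :: w.map ppow) (w'.map ppow)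
    (true, M₂) rfl
  rw [hlen] at hg
  obtain ⟨f, h, -⟩ := pstep_general (pix chn (w.length + 1)) (true, M₂) hg
  obtain ⟨h1, h2, h3⟩ := h rfl
  rw [nx_pix] at h2 h3
  exact ⟨f, h1, Prod.ext h2 h3⟩

theorem cseg₁ (k : ℕ) (hk : k ≤ w.length) :
    CS M₁ w M₂ w' (1 + k) = runw (w.take k) (CS M₁ w M₂ w' 1) := by
  have h := pseg (l := chain M₁ w M₂ w') chn (w.take k) [(true, M₁)]
    ((w.drop k).map ppow ++ (true, M₂) :: w'.map ppow) (by
      have e : w.map ppow = (w.take k).map ppow ++ (w.drop k).map ppow := by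
        rw [← List.map_append, List.take_append_drop]
      unfold chain
      rw [e, List.append_assoc, List.singleton_append])
  rw [List.length_take, min_eq_left hk, List.length_singleton] at h
  exact h

theorem cseg₂ (k : ℕ) (hk : k ≤ w'.length) :
    CS M₁ w M₂ w' (w.length + 2 + k) = runw (w'.take k) (CS M₁ w M₂ w' (w.length + 2)) := by
  have hlen : ((true, M₁) :: (w.map ppow ++ [(true, M₂)])).length = w.length + 2 := by simp
  have h := pseg (l := chain M₁ w M₂ w') chn (w'.take k)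
    ((true, M₁) :: (w.map ppow ++ [(true, M₂)])) ((w'.drop k).map ppow) (by
      rw [← List.map_append, List.take_append_drop]
      simp [chain])
  rw [List.length_take, min_eq_left hk, hlen] at h
  exact h

theorem cwhole₁ : CS M₁ w M₂ w' (w.length + 1) = runw w (CS M₁ w M₂ w' 1) := by
  have h := cseg₁ (M₁ := M₁) (M₂ := M₂) (w := w) (w' := w') w.length le_rfl
  rwa [List.take_length, add_comm] at h

theorem cwhole₂ : CS M₁ w M₂ w' 0 = runw w' (CS M₁ w M₂ w' (w.length + 2)) := by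
  have h := cseg₂ (M₁ := M₁) (M₂ := M₂) (w := w) (w' := w') w'.length le_rfl
  rw [List.take_length] at h
  rw [← h]
  have h1 := pst_length (l := chain M₁ w M₂ w') chn
  rw [clen] at h1
  have h2 : w.length + 2 + w'.length = w.length + w'.length + 2 := by ring
  rw [h2]
  exact h1.symm

theorem call_states (H : Subgroup (PChainGrp (chain M₁ w M₂ w')))
    (h1 : (CS M₁ w M₂ w' 1).1 ∈ H ∧ (CS M₁ w M₂ w' 1).2 ∈ H)
    (h2 : (CS M₁ w M₂ w' (w.length + 2)).1 ∈ H ∧ (CS M₁ w M₂ w' (w.length + 2)).2 ∈ H) (j : ℕ) :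
    (CS M₁ w M₂ w' j).1 ∈ H ∧ (CS M₁ w M₂ w' j).2 ∈ H := by
  have key : ∀ j, j < w.length + w'.length + 2 →
      (CS M₁ w M₂ w' j).1 ∈ H ∧ (CS M₁ w M₂ w' j).2 ∈ H := by
    intro j hj
    rcases Nat.eq_zero_or_pos j with rfl | h0
    · rw [cwhole₂]
      exact runw_mem H _ _ h2.1 h2.2
    · rcases le_or_gt j (w.length + 1) with h3 | h3
      · obtain ⟨k, rfl⟩ := Nat.exists_eq_add_of_le (show 1 ≤ j from h0)
        rw [cseg₁ k (by omega)]
        exact runw_mem H _ _ h1.1 h1.2
      · obtain ⟨k, rfl⟩ := Nat.exists_eq_add_of_le (show w.length + 2 ≤ j from h3)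
        rw [cseg₂ k (by omega)]
        exact runw_mem H _ _ h2.1 h2.2
  have h3 : CS M₁ w M₂ w' j = CS M₁ w M₂ w' (j % (chain M₁ w M₂ w').length) := by
    have : pix (l := chain M₁ w M₂ w') chn j = pix chn (j % (chain M₁ w M₂ w').length) :=
      Fin.ext (by simp [pix])
    change (Glued.A (pix chn j), Glued.B (pix chn j)) = (Glued.A (pix chn _), Glued.B (pix chn _))
    rw [this]
  rw [h3]
  refine key _ ?_
  rw [← clen (M₁ := M₁) (M₂ := M₂)]
  exact Nat.mod_lt _ chn

theorem cpieces_fb {X : Type} [LinearOrder X] (h₁ : FbX X M₁) (h₂ : FbX X M₂) :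
    ∀ y ∈ chain M₁ w M₂ w', FbX X y.2 := by
  intro y hy
  have hp : ∀ x : Bool × ℤ, FbX X (ppow x).2 := fun x φ x' h _ g => fb_pow x X φ x' h (by
    exact gen_fix φ h _) g
  rcases List.mem_cons.mp hy with rfl | hy
  · exact h₁
  · rcases List.mem_append.mp hy with hy | hy
    · obtain ⟨x, -, rfl⟩ := List.mem_map.mp hy
      exact hp x
    · rcases List.mem_cons.mp hy with rfl | hy
      · exact h₂
      · obtain ⟨x, -, rfl⟩ := List.mem_map.mp hy
        exact hp x

/-- If all states fix a point then the whole group does. -/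
theorem call_fixed {X : Type} [LinearOrder X] (h₁ : FbX X M₁) (h₂ : FbX X M₂)
    (φ : PChainGrp (chain M₁ w M₂ w') →* Aut X) (x : X)
    (hx : ∀ j, φ (CS M₁ w M₂ w' j).1 x = x ∧ φ (CS M₁ w M₂ w' j).2 x = x)
    (γ : PChainGrp (chain M₁ w M₂ w')) : φ γ x = x := by
  have hA : ∀ i : Fin (chain M₁ w M₂ w').length, φ (Glued.A i) x = x := by
    intro i
    have := (hx i.1).1
    change φ (Glued.A (pix chn i.1)) x = x at this
    rwa [pix_val] at this
  have hB : ∀ i : Fin (chain M₁ w M₂ w').length, φ (Glued.B i) x = x := by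
    intro i
    have := (hx i.1).2
    change φ (Glued.B (pix chn i.1)) x = x at this
    rwa [pix_val] at this
  have hmem : γ ∈ Subgroup.closure (Set.range (PresentedGroup.of
      (rels := Glued.relators (fun i : Fin (chain M₁ w M₂ w').length =>
        ((chain M₁ w M₂ w').get i).2) (fun i => ((chain M₁ w M₂ w').get i).1)))) := by
    rw [PresentedGroup.closure_range_of]; trivial
  induction hmem using Subgroup.closure_induction with
  | mem y hy =>
    obtain ⟨(i | i) | ⟨i, g⟩, rfl⟩ := hy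
    · exact hA i
    · exact hB i
    · have hf := cpieces_fb (w := w) (w' := w') h₁ h₂ _ (List.get_mem (chain M₁ w M₂ w') i)
      refine hf (φ.comp (Glued.inc (M := fun i : Fin (chain M₁ w M₂ w').length =>
        ((chain M₁ w M₂ w').get i).2) (κ := fun i => ((chain M₁ w M₂ w').get i).1) i)) x ?_ ?_ g
      · cases hk : ((chain M₁ w M₂ w').get i).1
        · obtain ⟨h1, -⟩ := Glued.relB (M := fun i : Fin (chain M₁ w M₂ w').length =>
            ((chain M₁ w M₂ w').get i).2) (κ := fun i => ((chain M₁ w M₂ w').get i).1) i hk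
          rw [MonoidHom.comp_apply, ← h1]; exact hB i
        · obtain ⟨h1, -⟩ := Glued.relA (M := fun i : Fin (chain M₁ w M₂ w').length =>
            ((chain M₁ w M₂ w').get i).2) (κ := fun i => ((chain M₁ w M₂ w').get i).1) i hk
          rw [MonoidHom.comp_apply, ← h1]; exact hA i
      · cases hk : ((chain M₁ w M₂ w').get i).1
        · obtain ⟨-, -, h1⟩ := Glued.relB (M := fun i : Fin (chain M₁ w M₂ w').length =>
            ((chain M₁ w M₂ w').get i).2) (κ := fun i => ((chain M₁ w M₂ w').get i).1) i hk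
          have h2 := hA (nx i)
          rw [h1, map_mul, mul_apply] at h2
          rw [MonoidHom.comp_apply, ← (φ (Glued.A i)).inj, h2, hA i]
        · obtain ⟨-, -, h1⟩ := Glued.relA (M := fun i : Fin (chain M₁ w M₂ w').length =>
            ((chain M₁ w M₂ w').get i).2) (κ := fun i => ((chain M₁ w M₂ w').get i).1) i hk
          have h2 := hB (nx i)
          rw [h1, map_mul, mul_apply, map_inv] at h2
          have h3 : (φ (Glued.inc i ((chain M₁ w M₂ w').get i).2.a))⁻¹ x = x := by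
            rw [← (φ (Glued.B i)).inj, h2, hB i]
          rw [MonoidHom.comp_apply]
          rw [← (φ (Glued.inc i ((chain M₁ w M₂ w').get i).2.a))⁻¹.inj, inv_self, h3]
  | one => rw [map_one, Aut.one_apply]
  | mul y z _ _ h5 h6 => rw [map_mul, Aut.mul_apply, h6, h5]
  | inv y _ h5 => rw [map_inv, ← Aut.inj (φ y), Aut.self_inv, h5]

end Pool.Agent.K7.H38.TW
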