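import Pool.Agent.K7.H38.TW.Chain

set_option autoImplicit false

/-!
# Intervals without global fixed points, and the signs of elements
-/

namespace Pool.Agent.K7.H38.TW

open Pool.Agent.Y479.LS Aut Pool.Agent.K7.H39.TB Pool.Agent.K7.H38.KN Pool.Agent.W705.Borr

theorem int_neg {z t : ℤ} (h : 0 < z * t) (hz : z < 0) : t < 0 := by
  by_contra h'
  rw [not_lt] at h'
  nlinarith

theorem int_pos {z t : ℤ} (h : 0 < z * t) (hz : 0 < z) : 0 < t := by
  by_contra h'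
  rw [not_lt] at h'
  nlinarith

section irr

variable {Γ : Type} [Group Γ] {X : Type} [CompleteLinearOrder X]

/-- The endpoints of the interval are global fixed points, and there are none inside. -/
structure Irr (φ : Γ →* Aut X) (α β : X) : Prop where
  ne : ∃ y, α < y ∧ y < β
  ga : ∀ γ, φ γ α = α
  gb : ∀ γ, φ γ β = β
  no : ∀ y, α < y → y < β → ¬ ∀ γ, φ γ y = y

/-- The fixed points of `γ₀` are global, in complete linear orders. -/
def FixG (γ₀ : Γ) : Prop := ∀ (X : Type) [CompleteLinearOrder X] (φ : Γ →* Aut X) (x : X),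
  φ γ₀ x = x → ∀ γ, φ γ x = x

def Up (φ : Γ →* Aut X) (α β : X) (γ : Γ) : Prop := ∀ y, α < y → y < β → y < φ γ y
def Dn (φ : Γ →* Aut X) (α β : X) (γ : Γ) : Prop := ∀ y, α < y → y < β → φ γ y < y
def Ge (φ : Γ →* Aut X) (α β : X) (γ : Γ) : Prop := ∀ y, α < y → y < β → y ≤ φ γ y
def Le (φ : Γ →* Aut X) (α β : X) (γ : Γ) : Prop := ∀ y, α < y → y < β → φ γ y ≤ y

variable {φ : Γ →* Aut X} {α β : X}

theorem Up.ge {γ : Γ} (h : Up φ α β γ) : Ge φ α β γ := fun y h1 h2 => (h y h1 h2).le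
theorem Dn.le {γ : Γ} (h : Dn φ α β γ) : Le φ α β γ := fun y h1 h2 => (h y h1 h2).le

theorem exists_irr (φ : Γ →* Aut X) (x : X) (hx : ¬ ∀ γ, φ γ x = x) :
    ∃ α β, Irr φ α β ∧ α < x ∧ x < β := by
  set A' : Set X := {f | f ≤ x ∧ ∀ γ, φ γ f = f} with hA'
  set B' : Set X := {f | x ≤ f ∧ ∀ γ, φ γ f = f} with hB'
  have ga : ∀ γ, φ γ (sSup A') = sSup A' := fun γ => sup_fix (φ γ) A' fun f hf => hf.2 γ
  have gb : ∀ γ, φ γ (sInf B') = sInf B' := fun γ => inf_fix (φ γ) B' fun f hf => hf.2 γ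
  have h1 : sSup A' < x := by
    refine lt_of_le_of_ne (sSup_le fun f hf => hf.1) ?_
    intro e; rw [e] at ga; exact hx ga
  have h2 : x < sInf B' := by
    refine lt_of_le_of_ne (le_sInf fun f hf => hf.1) ?_
    intro e; rw [← e] at gb; exact hx gb
  refine ⟨sSup A', sInf B', ⟨⟨x, h1, h2⟩, ga, gb, ?_⟩, h1, h2⟩
  intro y h3 h4 h5
  rcases le_total y x with h | h
  · exact absurd (h3.trans_le (le_sSup (show y ∈ A' from ⟨h, h5⟩))) (lt_irrefl _)
  · exact absurd (h4.trans_le (sInf_le (show y ∈ B' from ⟨h, h5⟩))) (lt_irrefl _)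

theorem Irr.dual (h : Irr φ α β) : Irr (X := Xᵒᵈ) (Aut.dual.comp φ) (OrderDual.toDual β)
    (OrderDual.toDual α) where
  ne := by obtain ⟨y, h1, h2⟩ := h.ne; exact ⟨OrderDual.toDual y, h2, h1⟩
  ga := h.gb
  gb := h.ga
  no y h1 h2 h3 := h.no (OrderDual.ofDual y) h2 h1 h3

/-- the action on the interval -/
def Irr.act (h : Irr φ α β) : Γ →* Aut (Set.Ioo α β) :=
  (res α β).comp (φ.codRestrict (stab α β) fun γ => ⟨h.ga γ, h.gb γ⟩)

theorem Irr.act_val (h : Irr φ α β) (γ : Γ) (y : Set.Ioo α β) : (h.act γ y).1 = φ γ y.1 := rfl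

theorem Irr.nonempty (h : Irr φ α β) : Nonempty (Set.Ioo α β) := by
  obtain ⟨y, h1, h2⟩ := h.ne; exact ⟨⟨y, h1, h2⟩⟩

theorem Irr.mem (h : Irr φ α β) (γ : Γ) {y : X} (h1 : α < y) (h2 : y < β) :
    α < φ γ y ∧ φ γ y < β := by
  have h3 := ((φ γ).lt_iff).mpr h1
  have h4 := ((φ γ).lt_iff).mpr h2
  rw [h.ga] at h3
  rw [h.gb] at h4
  exact ⟨h3, h4⟩

/-- An element without fixed points has a constant sign. -/
theorem sign_of {γ : Γ} (h : ∀ y, α < y → y < β → φ γ y ≠ y) : Up φ α β γ ∨ Dn φ α β γ := by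
  by_contra hcon
  rw [not_or] at hcon
  obtain ⟨c1, c2⟩ := hcon
  unfold Up at c1
  unfold Dn at c2
  push Not at c1 c2
  obtain ⟨z₁, a1, a2, a3⟩ := c1
  obtain ⟨z₂, b1, b2, b3⟩ := c2
  have a4 : φ γ z₁ < z₁ := lt_of_le_of_ne a3 (h z₁ a1 a2)
  have b4 : z₂ < φ γ z₂ := lt_of_le_of_ne b3 (h z₂ b1 b2).symm
  rcases le_total z₁ z₂ with h' | h'
  · obtain ⟨t, t1, t2, t3⟩ := ivt (φ γ : X ≃o X) h' a4.le b4
    exact h t (a1.trans_le t1) (t2.trans b2) t3
  · obtain ⟨t, t1, t2, t3⟩ := ivt' (φ γ : X ≃o X) h' a4.le b4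
    exact h t (b1.trans t1) (t2.trans_lt a2) t3

theorem Irr.nf (h : Irr φ α β) {γ : Γ} (hf : FixG γ) (y : X) (h1 : α < y) (h2 : y < β) :
    φ γ y ≠ y := fun h3 => h.no y h1 h2 (hf X φ y h3)

theorem Irr.sign (h : Irr φ α β) {γ : Γ} (hf : FixG γ) : Up φ α β γ ∨ Dn φ α β γ :=
  sign_of (h.nf hf)

theorem not_up_dn (h : Irr φ α β) {γ : Γ} (h1 : Up φ α β γ) (h2 : Dn φ α β γ) : False := by
  obtain ⟨y, h3, h4⟩ := h.ne
  exact lt_irrefl _ ((h1 y h3 h4).trans (h2 y h3 h4))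

/-! signs of products, inverses and powers -/

theorem Up.mul (h : Irr φ α β) {γ δ : Γ} (h1 : Up φ α β γ) (h2 : Up φ α β δ) :
    Up φ α β (γ * δ) := fun y h3 h4 => by
  have h5 := h.mem δ h3 h4
  rw [map_mul, mul_apply]
  exact (h2 y h3 h4).trans (h1 _ h5.1 h5.2)

theorem Dn.mul (h : Irr φ α β) {γ δ : Γ} (h1 : Dn φ α β γ) (h2 : Dn φ α β δ) :
    Dn φ α β (γ * δ) := fun y h3 h4 => by
  have h5 := h.mem δ h3 h4
  rw [map_mul, mul_apply]
  exact (h1 _ h5.1 h5.2).trans (h2 y h3 h4)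

theorem Up.zpow {γ : Γ} (h1 : Up φ α β γ) {n : ℤ} (hn : 0 < n) : Up φ α β (γ ^ n) :=
  fun y h3 h4 => by rw [map_zpow]; exact (zpow_sign (φ γ) y hn).1.mpr (h1 y h3 h4)

theorem Up.zpow_neg {γ : Γ} (h1 : Up φ α β γ) {n : ℤ} (hn : n < 0) : Dn φ α β (γ ^ n) :=
  fun y h3 h4 => by rw [map_zpow]; exact (zpow_sign_neg (φ γ) y hn).2.mpr (h1 y h3 h4)

theorem Dn.zpow {γ : Γ} (h1 : Dn φ α β γ) {n : ℤ} (hn : 0 < n) : Dn φ α β (γ ^ n) :=
  fun y h3 h4 => by rw [map_zpow]; exact (zpow_sign (φ γ) y hn).2.mpr (h1 y h3 h4)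

theorem Dn.zpow_neg {γ : Γ} (h1 : Dn φ α β γ) {n : ℤ} (hn : n < 0) : Up φ α β (γ ^ n) :=
  fun y h3 h4 => by rw [map_zpow]; exact (zpow_sign_neg (φ γ) y hn).1.mpr (h1 y h3 h4)

theorem up_of_zpow {γ : Γ} {n : ℤ} (hn : 0 < n) (h1 : Up φ α β (γ ^ n)) : Up φ α β γ :=
  fun y h3 h4 => by
    have := h1 y h3 h4
    rw [map_zpow] at this
    exact (zpow_sign (φ γ) y hn).1.mp this

theorem dn_of_zpow {γ : Γ} {n : ℤ} (hn : 0 < n) (h1 : Dn φ α β (γ ^ n)) : Dn φ α β γ :=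
  fun y h3 h4 => by
    have := h1 y h3 h4
    rw [map_zpow] at this
    exact (zpow_sign (φ γ) y hn).2.mp this

theorem dn_of_zpow_neg {γ : Γ} {n : ℤ} (hn : n < 0) (h1 : Up φ α β (γ ^ n)) : Dn φ α β γ :=
  fun y h3 h4 => by
    have := h1 y h3 h4
    rw [map_zpow] at this
    exact (zpow_sign_neg (φ γ) y hn).1.mp this

theorem up_of_zpow_neg {γ : Γ} {n : ℤ} (hn : n < 0) (h1 : Dn φ α β (γ ^ n)) : Up φ α β γ :=
  fun y h3 h4 => by
    have := h1 y h3 h4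
    rw [map_zpow] at this
    exact (zpow_sign_neg (φ γ) y hn).2.mp this

theorem up_inv {γ : Γ} : Up φ α β γ⁻¹ ↔ Dn φ α β γ := by
  constructor
  · intro h y h3 h4
    have := h y h3 h4
    rw [map_inv] at this
    exact (lt_inv_iff _ _).mp this
  · intro h y h3 h4
    rw [map_inv]
    exact (lt_inv_iff _ _).mpr (h y h3 h4)

theorem dn_inv {γ : Γ} : Dn φ α β γ⁻¹ ↔ Up φ α β γ := by
  constructor
  · intro h y h3 h4
    have := h y h3 h4
    rw [map_inv] at this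
    exact (inv_lt_iff _ _).mp this
  · intro h y h3 h4
    rw [map_inv]
    exact (inv_lt_iff _ _).mpr (h y h3 h4)

/-! ### two commuting elements -/

/-- Opposite signs. -/
def Opp (φ : Γ →* Aut X) (α β : X) (l b : Γ) : Prop :=
  (Up φ α β l ∧ Dn φ α β b) ∨ (Dn φ α β l ∧ Up φ α β b)

/-- If the common fixed points of `l` and `b` are global then a fixed point of `l ^ z * b ^ t`, `z ≠ 0`,
in the interval excludes fixed points of `b` in the interval. -/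
theorem Irr.nf_of_fix (h : Irr φ α β) {l b : Γ} (hc : Commute l b)
    (hg : ∀ y, φ l y = y → φ b y = y → ∀ γ, φ γ y = y) {z t : ℤ} (hz : z ≠ 0) {x : X}
    (h1 : α < x) (h2 : x < β) (hx : φ (l ^ z * b ^ t) x = x) :
    ∀ y, α < y → y < β → φ b y ≠ y := by
  intro f f1 f2 f3
  have hlb : Commute (φ l) (φ b) := hc.map φ
  have hx' : (φ l ^ z * φ b ^ t) x = x := by
    rw [← map_zpow, ← map_zpow, ← map_mul]; exact hx
  rcases le_total f x with h' | h'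
  · obtain ⟨S, s1, s2, s3, s4⟩ := common hlb hz hx' f3 h'
    exact h.no S (f1.trans_le s1) (s2.trans_lt h2) (hg S s3 s4)
  · have hd : Aut.dual (φ l ^ z * φ b ^ t) = Aut.dual (φ l) ^ z * Aut.dual (φ b) ^ t := by
      rw [map_mul, map_zpow, map_zpow]
    have hx'' : (Aut.dual (φ l) ^ z * Aut.dual (φ b) ^ t) (OrderDual.toDual x) =
        OrderDual.toDual x := by
      rw [← hd]; exact hx'
    obtain ⟨S, s1, s2, s3, s4⟩ := common (X := Xᵒᵈ) (l := Aut.dual (φ l)) (b := Aut.dual (φ b))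
      (t := t) (x := OrderDual.toDual x) (f := OrderDual.toDual f) (hlb.map Aut.dual) hz hx'' f3 h'
    have s1' : OrderDual.ofDual S ≤ f := s1
    have s2' : x ≤ OrderDual.ofDual S := s2
    exact h.no (OrderDual.ofDual S) (h1.trans_le s2') (s1'.trans_lt f2)
      (hg (OrderDual.ofDual S) s3 s4)

theorem Irr.opp_of_fix (h : Irr φ α β) {l b : Γ} (hc : Commute l b)
    (hg : ∀ y, φ l y = y → φ b y = y → ∀ γ, φ γ y = y) {z t : ℤ} (hzt : 0 < z * t) {x : X}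
    (h1 : α < x) (h2 : x < β) (hx : φ (l ^ z * b ^ t) x = x) : Opp φ α β l b := by
  have hz : z ≠ 0 := by rintro rfl; simp at hzt
  have ht : t ≠ 0 := by rintro rfl; simp at hzt
  have nb := h.nf_of_fix hc hg hz h1 h2 hx
  have nl := h.nf_of_fix hc.symm (fun y h3 h4 => hg y h4 h3) (z := t) (t := z) ht h1 h2 (by
    rw [((hc.symm).zpow_zpow t z).eq]; exact hx)
  have key : ∀ γ : Γ, (Up φ α β γ ∨ Dn φ α β γ) → φ γ x ≠ x := by
    rintro γ (h3 | h3) h4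
    · exact (h3 x h1 h2).ne h4.symm
    · exact (h3 x h1 h2).ne h4
  rcases sign_of nl with hl | hl <;> rcases sign_of nb with hb | hb
  · exfalso
    refine key _ ?_ hx
    rcases lt_or_gt_of_ne hz with hz' | hz'
    · have ht' : t < 0 := int_neg hzt hz'
      exact Or.inr ((hl.zpow_neg hz').mul h (hb.zpow_neg ht'))
    · have ht' : 0 < t := int_pos hzt hz'
      exact Or.inl ((hl.zpow hz').mul h (hb.zpow ht'))
  · exact Or.inl ⟨hl, hb⟩
  · exact Or.inr ⟨hl, hb⟩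
  · exfalso
    refine key _ ?_ hx
    rcases lt_or_gt_of_ne hz with hz' | hz'
    · have ht' : t < 0 := int_neg hzt hz'
      exact Or.inl ((hl.zpow_neg hz').mul h (hb.zpow_neg ht'))
    · have ht' : 0 < t := int_pos hzt hz'
      exact Or.inr ((hl.zpow hz').mul h (hb.zpow ht'))

end irr

end Pool.Agent.K7.H38.TW
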