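import Pool.Agent.K7.H38.TW.Irr

set_option autoImplicit false

/-!
# Twisted doubles: homomorphisms to left-orderable groups
-/

namespace Pool.Agent.K7.H38.TW

open Pool.Agent.Y479.LS Aut Pool.Agent.K7.H39.TB Pool.Agent.K7.H38.KN Pool.Agent.W705.Borr

/-! ### the signs in a reduced twisted double -/

section red

variable {Γ : Type} [Group Γ] {A a l B u : Γ}

theorem Red.y1 {Y : Type} [LinearOrder Y] (R : Red A a l B u) (ψ : Γ →* Aut Y) :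
    run R.p (ψ R.m, ψ R.g) = (ψ l, ψ R.c) := by rw [run_map, R.r1]

theorem Red.y2 {Y : Type} [LinearOrder Y] (R : Red A a l B u) (ψ : Γ →* Aut Y) :
    run R.p (ψ R.m, ψ R.g * ψ R.v) = (ψ R.l', ψ R.a') := by rw [← map_mul, run_map, R.r2]

theorem Red.y3 {Y : Type} [LinearOrder Y] (R : Red A a l B u) (ψ : Γ →* Aut Y) :
    run R.p (ψ R.m', ψ R.g') = (ψ l, ψ R.c * ψ u) := by rw [run_map, R.r3, ← map_mul]

section

variable {Y : Type} [LinearOrder Y] {f k : Aut Y}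

theorem up_c (h : ∀ z, z < f z) (z : Y) : z < (k * f * k⁻¹) z := (conj_lt_iff k f z).1.mpr (h _)
theorem dn_c (h : ∀ z, f z < z) (z : Y) : (k * f * k⁻¹) z < z := (conj_lt_iff k f z).2.mpr (h _)

theorem up_ci (h : ∀ z, f z < z) (z : Y) : z < (k * f⁻¹ * k⁻¹) z :=
  (conj_lt_iff k f⁻¹ z).1.mpr ((lt_inv_iff f _).mpr (h _))

theorem dn_ci (h : ∀ z, z < f z) (z : Y) : (k * f⁻¹ * k⁻¹) z < z :=
  (conj_lt_iff k f⁻¹ z).2.mpr ((inv_lt_iff f _).mpr (h _))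

theorem ge_c (h : ∀ z, z ≤ f z) (z : Y) : z ≤ (k * f * k⁻¹) z := by
  rw [mul_apply, mul_apply]
  refine le_trans ?_ ((k.le_iff).mpr (h _))
  rw [self_inv]

theorem le_c (h : ∀ z, f z ≤ z) (z : Y) : (k * f * k⁻¹) z ≤ z := by
  rw [mul_apply, mul_apply]
  refine le_trans ((k.le_iff).mpr (h _)) ?_
  rw [self_inv]

end

variable {X : Type} [CompleteLinearOrder X] {φ : Γ →* Aut X} {α β : X}

/-- The first piece is positive. -/
theorem quadP (h : Irr φ α β) (R : Red A a l B u)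
    (hs : (Up φ α β a ∧ Ge φ α β A) ∨ (Dn φ α β a ∧ Le φ α β A)) :
    (¬ Ge φ α β l ∧ ¬ Dn φ α β u) ∨ (¬ Le φ α β l ∧ ¬ Up φ α β u) := by
  have := h.nonempty
  have hmv : ((∀ z, z < h.act R.v z) ∧ (∀ z, z ≤ h.act R.m z)) ∨
      ((∀ z, h.act R.v z < z) ∧ (∀ z, h.act R.m z ≤ z)) := by
    rcases hs with ⟨h1, h2⟩ | ⟨h1, h2⟩
    · have h3 : ∀ z, z < h.act a z := fun z => h1 z.1 z.2.1 z.2.2
      have h4 : ∀ z, z ≤ h.act A z := fun z => h2 z.1 z.2.1 z.2.2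
      rcases R.hs with ⟨e1, e2⟩ | ⟨e1, e2⟩ <;> rw [e1, e2] <;> simp only [map_mul, map_inv]
      · exact Or.inl ⟨up_c h3, ge_c h4⟩
      · exact Or.inr ⟨dn_ci h3, conj_inv_le h4⟩
    · have h3 : ∀ z, h.act a z < z := fun z => h1 z.1 z.2.1 z.2.2
      have h4 : ∀ z, h.act A z ≤ z := fun z => h2 z.1 z.2.1 z.2.2
      rcases R.hs with ⟨e1, e2⟩ | ⟨e1, e2⟩ <;> rw [e1, e2] <;> simp only [map_mul, map_inv]
      · exact Or.inr ⟨dn_c h3, le_c h4⟩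
      · exact Or.inl ⟨up_ci h3, le_conj_inv h4⟩
  have hl : h.act R.l' = h.act R.q * (h.act l)⁻¹ * (h.act R.q)⁻¹ := by
    rw [R.hl']; simp only [map_mul, map_inv]
  have hm : h.act R.m' = h.act R.r * (h.act R.m)⁻¹ * (h.act R.r)⁻¹ := by
    rw [R.hm']; simp only [map_mul, map_inv]
  rcases hmv with ⟨h1, h2⟩ | ⟨h1, h2⟩
  · exact Or.inl ⟨fun h3 => not_ge R.hp (R.y1 _) (R.y2 _) hl h1 fun z => h3 z.1 z.2.1 z.2.2,
      fun h3 => not_dn R.hp (R.y1 _) (R.y3 _) hm h2 fun z => h3 z.1 z.2.1 z.2.2⟩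
  · exact Or.inr ⟨fun h3 => not_le R.hp (R.y1 _) (R.y2 _) hl h1 fun z => h3 z.1 z.2.1 z.2.2,
      fun h3 => not_up R.hp (R.y1 _) (R.y3 _) hm h2 fun z => h3 z.1 z.2.1 z.2.2⟩

/-- The first piece is negative. -/
theorem quadN (h : Irr φ α β) (R : Red A a l B u)
    (hs : (Up φ α β a ∧ Le φ α β A) ∨ (Dn φ α β a ∧ Ge φ α β A)) :
    (¬ Ge φ α β l ∧ ¬ Up φ α β u) ∨ (¬ Le φ α β l ∧ ¬ Dn φ α β u) := by
  have := h.nonempty
  have hmv : ((∀ z, z < h.act R.v z) ∧ (∀ z, h.act R.m z ≤ z)) ∨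
      ((∀ z, h.act R.v z < z) ∧ (∀ z, z ≤ h.act R.m z)) := by
    rcases hs with ⟨h1, h2⟩ | ⟨h1, h2⟩
    · have h3 : ∀ z, z < h.act a z := fun z => h1 z.1 z.2.1 z.2.2
      have h4 : ∀ z, h.act A z ≤ z := fun z => h2 z.1 z.2.1 z.2.2
      rcases R.hs with ⟨e1, e2⟩ | ⟨e1, e2⟩ <;> rw [e1, e2] <;> simp only [map_mul, map_inv]
      · exact Or.inl ⟨up_c h3, le_c h4⟩
      · exact Or.inr ⟨dn_ci h3, le_conj_inv h4⟩
    · have h3 : ∀ z, h.act a z < z := fun z => h1 z.1 z.2.1 z.2.2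
      have h4 : ∀ z, z ≤ h.act A z := fun z => h2 z.1 z.2.1 z.2.2
      rcases R.hs with ⟨e1, e2⟩ | ⟨e1, e2⟩ <;> rw [e1, e2] <;> simp only [map_mul, map_inv]
      · exact Or.inr ⟨dn_c h3, ge_c h4⟩
      · exact Or.inl ⟨up_ci h3, conj_inv_le h4⟩
  have hl : h.act R.l' = h.act R.q * (h.act l)⁻¹ * (h.act R.q)⁻¹ := by
    rw [R.hl']; simp only [map_mul, map_inv]
  have hm : h.act R.m' = h.act R.r * (h.act R.m)⁻¹ * (h.act R.r)⁻¹ := by
    rw [R.hm']; simp only [map_mul, map_inv]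
  rcases hmv with ⟨h1, h2⟩ | ⟨h1, h2⟩
  · exact Or.inl ⟨fun h3 => not_ge R.hp (R.y1 _) (R.y2 _) hl h1 fun z => h3 z.1 z.2.1 z.2.2,
      fun h3 => not_up R.hp (R.y1 _) (R.y3 _) hm h2 fun z => h3 z.1 z.2.1 z.2.2⟩
  · exact Or.inr ⟨fun h3 => not_le R.hp (R.y1 _) (R.y2 _) hl h1 fun z => h3 z.1 z.2.1 z.2.2,
      fun h3 => not_dn R.hp (R.y1 _) (R.y3 _) hm h2 fun z => h3 z.1 z.2.1 z.2.2⟩

end red

/-! ### signed pieces -/

/-- A positive piece: if `a` moves all points up then `A` moves no point down. -/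
def SgP (M : Piece) : Prop := ∀ (X : Type) [CompleteLinearOrder X] (φ : M.P →* Aut X) (α β : X),
  Irr φ α β → Up φ α β M.a → Ge φ α β M.A

/-- A negative piece: if `a` moves all points up then `A` moves no point up. -/
def SgN (M : Piece) : Prop := ∀ (X : Type) [CompleteLinearOrder X] (φ : M.P →* Aut X) (α β : X),
  Irr φ α β → Up φ α β M.a → Le φ α β M.A

theorem SgP.dn {M : Piece} (h : SgP M) {X : Type} [CompleteLinearOrder X] {φ : M.P →* Aut X}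
    {α β : X} (hi : Irr φ α β) (hd : Dn φ α β M.a) : Le φ α β M.A := fun y h1 h2 =>
  h Xᵒᵈ (Aut.dual.comp φ) _ _ hi.dual (fun y h3 h4 => hd (OrderDual.ofDual y) h4 h3)
    (OrderDual.toDual y) h2 h1

theorem SgN.dn {M : Piece} (h : SgN M) {X : Type} [CompleteLinearOrder X] {φ : M.P →* Aut X}
    {α β : X} (hi : Irr φ α β) (hd : Dn φ α β M.a) : Ge φ α β M.A := fun y h1 h2 =>
  h Xᵒᵈ (Aut.dual.comp φ) _ _ hi.dual (fun y h3 h4 => hd (OrderDual.ofDual y) h4 h3)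
    (OrderDual.toDual y) h2 h1

/-! ### the group of a twisted double -/

section data

/-- The elements of the two pieces and their relations. -/
structure Dat (M₁ : Piece) (w : List (Bool × ℤ)) (M₂ : Piece) (e : ℤ) where
  f₁ : M₁.P →* PChainGrp (twisted M₁ w M₂ e)
  f₂ : M₂.P →* PChainGrp (twisted M₁ w M₂ e)
  B : PChainGrp (twisted M₁ w M₂ e)
  b1 : (CS M₁ w M₂ (inv w ++ turn e) (w.length + 1)).1 = f₂ M₂.A
  b2 : CS M₁ w M₂ (inv w ++ turn e) (w.length + 2) =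
    ((CS M₁ w M₂ (inv w ++ turn e) (w.length + 1)).1,
      (CS M₁ w M₂ (inv w ++ turn e) (w.length + 1)).2 * (f₂ M₂.a)⁻¹)
  hB : B = (CS M₁ w M₂ (inv w ++ turn e) (w.length + 1)).2
  a1 : (CS M₁ w M₂ (inv w ++ turn e) 0).1 = f₁ M₁.A
  a2 : CS M₁ w M₂ (inv w ++ turn e) 1 = ((CS M₁ w M₂ (inv w ++ turn e) 0).1,
    (CS M₁ w M₂ (inv w ++ turn e) 0).2 * (f₁ M₁.a)⁻¹)
  s : PChainGrp (twisted M₁ w M₂ e) × PChainGrp (twisted M₁ w M₂ e)
  s' : PChainGrp (twisted M₁ w M₂ e) × PChainGrp (twisted M₁ w M₂ e)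
  ty : Ty (f₁ M₁.A) (f₁ M₁.a) s s'
  e1 : runw w s = (f₂ M₂.A, B)
  e2 : runw w s' = (dd mX mY ^ e) (f₂ M₂.A, B * (f₂ M₂.a)⁻¹)
  cu : f₂ M₂.A * (f₂ M₂.a)⁻¹ = (f₂ M₂.a)⁻¹ * f₂ M₂.A

theorem dat (M₁ : Piece) (w : List (Bool × ℤ)) (M₂ : Piece) {e : ℤ}
    (he : e = 0 ∨ e = 1 ∨ e = -1) : Nonempty (Dat M₁ w M₂ e) := by
  obtain ⟨f₁, a1, a2⟩ := cfirst (M₁ := M₁) (M₂ := M₂) (w := w) (w' := inv w ++ turn e)
  obtain ⟨f₂, b1, b2⟩ := csecond (M₁ := M₁) (M₂ := M₂) (w := w) (w' := inv w ++ turn e)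
  refine ⟨⟨f₁, f₂, _, b1, b2, rfl, a1, a2, CS M₁ w M₂ (inv w ++ turn e) 1,
    CS M₁ w M₂ (inv w ++ turn e) 0, ⟨(CS M₁ w M₂ (inv w ++ turn e) 1).2, ?_, ?_, ?_⟩,
    ?_, ?_, ?_⟩⟩
  · rw [a2]
    change ((CS M₁ w M₂ (inv w ++ turn e) 0).1, _) = _
    rw [a1]
  · rw [a2]
    refine Prod.ext a1 ?_
    change _ = (CS M₁ w M₂ (inv w ++ turn e) 0).2 * (f₁ M₁.a)⁻¹ * f₁ M₁.a
    rw [inv_mul_cancel_right]
  · rw [← map_mul, ← map_mul, M₁.comm]
  · rw [← cwhole₁]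
    exact Prod.ext b1 rfl
  · rw [cwhole₂, runw_append, runw_turn he, dd_runw, runw_inv, b2, b1]
  · have h3 : Commute (f₂ M₂.A) (f₂ M₂.a) := by
      unfold Commute SemiconjBy
      rw [← map_mul, ← map_mul, M₂.comm]
    exact h3.inv_right.eq

variable {M₁ M₂ : Piece} {w : List (Bool × ℤ)} {e : ℤ}

/-- A point that is fixed by the state before the second piece and by `a` is a global fixed point. -/
theorem Dat.glob (D : Dat M₁ w M₂ e) {X : Type} [LinearOrder X] (h₁ : FbX X M₁) (h₂ : FbX X M₂)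
    (φ : PChainGrp (twisted M₁ w M₂ e) →* Aut X) {x : X} (hA : φ (D.f₂ M₂.A) x = x)
    (hB : φ D.B x = x) (ha : φ (D.f₂ M₂.a) x = x) (γ : PChainGrp (twisted M₁ w M₂ e)) :
    φ γ x = x := by
  set K : Subgroup (PChainGrp (twisted M₁ w M₂ e)) := (Aut.stab x x).comap φ with hK
  have mem : ∀ {γ}, φ γ x = x → γ ∈ K := fun h => ⟨h, h⟩
  have k1 : (CS M₁ w M₂ (inv w ++ turn e) (w.length + 1)).1 ∈ K ∧
      (CS M₁ w M₂ (inv w ++ turn e) (w.length + 1)).2 ∈ K :=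
    ⟨mem (by rw [D.b1]; exact hA), mem (by rw [← D.hB]; exact hB)⟩
  have k2 : (CS M₁ w M₂ (inv w ++ turn e) (w.length + 2)).1 ∈ K ∧
      (CS M₁ w M₂ (inv w ++ turn e) (w.length + 2)).2 ∈ K := by
    rw [D.b2]; exact ⟨k1.1, K.mul_mem k1.2 (K.inv_mem (mem ha))⟩
  have k3 : (CS M₁ w M₂ (inv w ++ turn e) 1).1 ∈ K ∧ (CS M₁ w M₂ (inv w ++ turn e) 1).2 ∈ K := by
    have := runw_mem K (inv w) _ k1.1 k1.2
    rwa [cwhole₁, runw_inv'] at this
  exact call_fixed h₁ h₂ φ x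
    (fun j => ⟨(call_states K k3 k2 j).1.1, (call_states K k3 k2 j).2.1⟩) γ

theorem Dat.red (D : Dat M₁ w M₂ e) (hN : cross w ≠ 0) (he : e = 1 ∨ e = -1) :
    Nonempty (Red (D.f₁ M₁.A) (D.f₁ M₁.a) (D.f₂ M₂.A) D.B (D.f₂ M₂.a)⁻¹) :=
  TW.red hN D.ty he D.e1 D.e2 D.cu

theorem run_mem' {G : Type} [Group G] (H : Subgroup G) : ∀ (l : List Bool) (D x : G),
    D ∈ H → x ∈ H → (run l (D, x)).1 ∈ H ∧ (run l (D, x)).2 ∈ H
  | [], _, _, h1, h2 => ⟨h1, h2⟩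
  | true :: l, D, x, h1, h2 => run_mem' H l D (x * D) h1 (H.mul_mem h2 h1)
  | false :: l, D, x, h1, h2 => run_mem' H l (D * x) x (H.mul_mem h1 h2) h2

/-- Twisted doubles: the fixed points of the element `a` of the first piece are global. -/
theorem Dat.fixV (D : Dat M₁ w M₂ e) (hN : cross w ≠ 0) (he : e = 1 ∨ e = -1) (h₁ : Fc M₁)
    (h₂ : ∀ (X : Type) [CompleteLinearOrder X], FbX X M₂) : FixG (D.f₁ M₁.a) := by
  intro X _ φ x hx
  obtain ⟨R⟩ := D.red hN he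
  have hA : φ (D.f₁ M₁.A) x = x := h₁ X (φ.comp D.f₁) x hx M₁.A
  have hmv : φ R.m (φ R.k x) = φ R.k x ∧ φ R.v (φ R.k x) = φ R.k x := by
    rcases R.hs with ⟨e1, e2⟩ | ⟨e1, e2⟩ <;> rw [e1, e2] <;>
      simp only [map_mul, map_inv, mul_apply, inv_self]
    · exact ⟨by rw [hA], by rw [hx]⟩
    · exact ⟨by rw [inv_fix hA], by rw [inv_fix hx]⟩
  have hg : φ R.g (φ R.k x) = φ R.k x := by
    refine fix_g R.hp (R.y1 φ) (R.y2 φ) ?_ hmv.1 hmv.2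
    rcases R.k1 with h | h
    · left; rw [← map_mul, h]; simp only [map_mul, map_inv]
    · right; rw [← map_mul, h]; simp only [map_mul, map_inv]
  set y := φ R.k x with hy
  set K : Subgroup (PChainGrp (twisted M₁ w M₂ e)) := (Aut.stab y y).comap φ with hK
  have mem : ∀ {γ}, φ γ y = y → γ ∈ K := fun h => ⟨h, h⟩
  have km : R.m ∈ K := mem hmv.1
  have kg : R.g ∈ K := mem hg
  have kv : R.v ∈ K := mem hmv.2
  have k1 := run_mem' K R.p R.m R.g km kg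
  rw [R.r1] at k1
  have k2 := (R.mem K).mp ⟨km, K.mul_mem kg kv⟩
  have k3 := run_mem' K R.p R.m' R.g' k2.1 k2.2
  rw [R.r3] at k3
  have kl : D.f₂ M₂.A ∈ K := k1.1
  have kc : R.c ∈ K := k1.2
  have ku : (D.f₂ M₂.a)⁻¹ ∈ K := (K.mul_mem_cancel_left kc).mp k3.2
  have kB : D.B ∈ K := by
    have h5 := R.hc
    have h6 : D.B = R.c * (D.f₂ M₂.A ^ R.i)⁻¹ := by rw [h5, mul_inv_cancel_right]
    rw [h6]
    exact K.mul_mem kc (K.inv_mem (K.zpow_mem kl _))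
  have hglob := D.glob (h₁.fb X) (h₂ X) φ (x := y) kl.1 kB.1 ((K.inv_mem_iff).mp ku).1
  have hxy : x = y := by
    have h5 := hglob R.k⁻¹
    rw [map_inv, hy, inv_self] at h5
    rw [hy]; exact h5
  rw [hxy]
  exact hglob

/-- Twisted doubles: the common fixed points of the elements `A` and `a` of the second piece are
global. -/
theorem Dat.fixLU (D : Dat M₁ w M₂ e) (hN : cross w ≠ 0) (he : e = 1 ∨ e = -1) {X : Type}
    [LinearOrder X] (h₁ : FbX X M₁) (h₂ : FbX X M₂) (φ : PChainGrp (twisted M₁ w M₂ e) →* Aut X)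
    {x : X} (hA : φ (D.f₂ M₂.A) x = x) (ha : φ (D.f₂ M₂.a) x = x) (γ) : φ γ x = x := by
  obtain ⟨R⟩ := D.red hN he
  have hu : φ (D.f₂ M₂.a)⁻¹ x = x := by rw [map_inv, inv_fix ha]
  have hc : φ R.c x = x := by
    refine fix_a R.hp (R.y1 φ) (R.y3 φ) ?_ hA hu
    rcases R.k2 with h | h
    · left; rw [← map_mul, h]; simp only [map_mul, map_inv]
    · right; rw [← map_mul, h]; simp only [map_mul, map_inv]
  refine D.glob h₁ h₂ φ hA ?_ ha γ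
  have h6 : D.B = R.c * (D.f₂ M₂.A ^ R.i)⁻¹ := by rw [R.hc, mul_inv_cancel_right]
  rw [h6, map_mul, mul_apply, map_inv, map_zpow, inv_fix (zpow_fix _ hA _), hc]

theorem Irr.comp {Γ : Type} [Group Γ] {X : Type} [CompleteLinearOrder X] {φ : Γ →* Aut X} {α β : X}
    (h : Irr φ α β) {P : Type} [Group P] (f : P →* Γ) {a : P} (hf : FixG (f a)) :
    Irr (φ.comp f) α β where
  ne := h.ne
  ga γ := h.ga (f γ)
  gb γ := h.gb (f γ)
  no y h1 h2 h3 := h.no y h1 h2 (hf X φ y (h3 a))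

/-- **Twisted doubles of a positive and a negative piece.** -/
theorem closedPN (hN : cross w ≠ 0) (he : e = 1 ∨ e = -1) (h₁ : Fc M₁) (s₁ : SgP M₁)
    (h₂ : Fc M₂) (s₂ : SgN M₂) : NoLO (PChainGrp (twisted M₁ w M₂ e)) := by
  obtain ⟨D⟩ := dat M₁ w M₂ (Or.inr he)
  obtain ⟨R⟩ := D.red hN he
  have hV := D.fixV hN he h₁ (fun X _ => h₂.fb X)
  have hU : FixG (D.f₂ M₂.a) := fun X _ φ x hx γ => D.fixLU hN he (h₁.fb X) (h₂.fb X) φ
    (h₂ X (φ.comp D.f₂) x hx M₂.A) hx γ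
  have key : ∀ (X : Type) [CompleteLinearOrder X] (φ : PChainGrp (twisted M₁ w M₂ e) →* Aut X)
      (x : X), ∀ γ, φ γ x = x := by
    intro X _ φ x
    by_contra hx
    obtain ⟨α, β, hi, -, -⟩ := exists_irr φ x hx
    have i₁ := hi.comp D.f₁ hV
    have i₂ := hi.comp D.f₂ hU
    have q := quadP hi R (by
      rcases hi.sign hV with h | h
      · exact Or.inl ⟨h, s₁ X _ α β i₁ h⟩
      · exact Or.inr ⟨h, s₁.dn i₁ h⟩)
    rw [up_inv, dn_inv] at q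
    rcases hi.sign hU with h | h
    · have hle : Le φ α β (D.f₂ M₂.A) := s₂ X _ α β i₂ h
      rcases q with ⟨-, q2⟩ | ⟨q1, -⟩
      · exact q2 h
      · exact q1 hle
    · have hge : Ge φ α β (D.f₂ M₂.A) := s₂.dn i₂ h
      rcases q with ⟨q1, -⟩ | ⟨-, q2⟩
      · exact q1 hge
      · exact q2 h
  intro H _ hH f γ
  refine hom_trivial (1 : PChainGrp (twisted M₁ w M₂ e)) (to_complete _ fun X _ φ x _ => key X φ x)
    ?_ H hH f γ
  intro X _ _ φ h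
  obtain ⟨z⟩ := (inferInstance : Nonempty X)
  have := h z
  rw [map_one, one_apply] at this
  exact lt_irrefl _ this

/-- **Twisted doubles of a negative and a positive piece.** -/
theorem closedNP (hN : cross w ≠ 0) (he : e = 1 ∨ e = -1) (h₁ : Fc M₁) (s₁ : SgN M₁)
    (h₂ : Fc M₂) (s₂ : SgP M₂) : NoLO (PChainGrp (twisted M₁ w M₂ e)) := by
  obtain ⟨D⟩ := dat M₁ w M₂ (Or.inr he)
  obtain ⟨R⟩ := D.red hN he
  have hV := D.fixV hN he h₁ (fun X _ => h₂.fb X)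
  have hU : FixG (D.f₂ M₂.a) := fun X _ φ x hx γ => D.fixLU hN he (h₁.fb X) (h₂.fb X) φ
    (h₂ X (φ.comp D.f₂) x hx M₂.A) hx γ
  have key : ∀ (X : Type) [CompleteLinearOrder X] (φ : PChainGrp (twisted M₁ w M₂ e) →* Aut X)
      (x : X), ∀ γ, φ γ x = x := by
    intro X _ φ x
    by_contra hx
    obtain ⟨α, β, hi, -, -⟩ := exists_irr φ x hx
    have i₁ := hi.comp D.f₁ hV
    have i₂ := hi.comp D.f₂ hU
    have q := quadN hi R (by
      rcases hi.sign hV with h | h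
      · exact Or.inl ⟨h, s₁ X _ α β i₁ h⟩
      · exact Or.inr ⟨h, s₁.dn i₁ h⟩)
    rw [up_inv, dn_inv] at q
    rcases hi.sign hU with h | h
    · have hge : Ge φ α β (D.f₂ M₂.A) := s₂ X _ α β i₂ h
      rcases q with ⟨q1, -⟩ | ⟨-, q2⟩
      · exact q1 hge
      · exact q2 h
    · have hle : Le φ α β (D.f₂ M₂.A) := s₂.dn i₂ h
      rcases q with ⟨-, q2⟩ | ⟨q1, -⟩
      · exact q2 h
      · exact q1 hle
  intro H _ hH f γ
  refine hom_trivial (1 : PChainGrp (twisted M₁ w M₂ e)) (to_complete _ fun X _ φ x _ => key X φ x)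
    ?_ H hH f γ
  intro X _ _ φ h
  obtain ⟨z⟩ := (inferInstance : Nonempty X)
  have := h z
  rw [map_one, one_apply] at this
  exact lt_irrefl _ this

end data

end Pool.Agent.K7.H38.TW
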