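import Pool.Agent.K7.H38.TW.Nested

set_option autoImplicit false

/-!
# Signed nests
-/

namespace Pool.Agent.K7.H38.TW

open Pool.Agent.Y479.LS Aut Pool.Agent.K7.H39.TB Pool.Agent.K7.H38.KN Pool.Agent.W705.Borr

section zero

variable {M : Piece} {w : List (Bool × ℤ)}

theorem Dat.maps {M₂ : Piece} {e : ℤ} (D : Dat M w M₂ e) {X : Type} [LinearOrder X]
    (φ : PChainGrp (twisted M w M₂ e) →* Aut X) :
    Ty (φ (D.f₁ M.A)) (φ (D.f₁ M.a)) (φ D.s.1, φ D.s.2) (φ D.s'.1, φ D.s'.2) ∧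
    runw w (φ D.s.1, φ D.s.2) = (φ (D.f₂ M₂.A), φ D.B) := by
  refine ⟨?_, ?_⟩
  · obtain ⟨B, h1, h2, h3⟩ := D.ty
    refine ⟨φ B, ?_, ?_, ?_⟩
    · rw [h1]
    · rw [h2]
      change (φ (D.f₁ M.A), φ (B * D.f₁ M.a)) = _
      rw [map_mul]
    · rw [← map_mul, h3, map_mul]
  · rw [runw_map φ w D.s, D.e1]

theorem Dat.map₂ (D : Dat M w hole 0) {X : Type} [LinearOrder X]
    (φ : PChainGrp (twisted M w hole 0) →* Aut X) :
    runw w (φ D.s'.1, φ D.s'.2) = (φ (D.f₂ hole.A), φ D.B * φ (D.f₂ hole.a)⁻¹) := by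
  have h := D.e2
  rw [zpow_zero, Equiv.Perm.one_apply] at h
  rw [runw_map φ w D.s', h, ← map_mul]

theorem Dat.cf₀ (D : Dat M w hole 0) (hN : cross w ≠ 0) (h : Fc M) :
    CF (D.f₂ hole.A) (D.f₂ hole.a) := by
  intro X _ φ x hA ha
  refine D.glob (h.fb X) (hole_fb X) φ hA ?_ ha
  have hvc : VC (φ (D.f₁ M.A)) (φ (D.f₁ M.a)) := fun z hz => h X (φ.comp D.f₁) z hz M.A
  exact core_fix hN (D.maps φ).1 hvc (D.maps φ).2 (D.map₂ φ)
    (by rw [← map_mul, ← map_mul, D.cu]) x hA (by rw [map_inv]; exact inv_fix ha)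

theorem Dat.ns₀ (D : Dat M w hole 0) (hN : cross w ≠ 0) (X : Type) [LinearOrder X] [Nonempty X]
    (φ : PChainGrp (twisted M w hole 0) →* Aut X) : ¬ ∀ z, z < φ (D.f₂ hole.a) z := by
  intro hz
  refine core_up hN (D.maps φ).1 (D.maps φ).2 (D.map₂ φ) (by rw [← map_mul, ← map_mul, D.cu])
    fun z => ?_
  rw [map_inv, inv_inv]
  exact hz z

end zero

section general

variable {Γ : Type} [Group Γ] {l b : Γ}

/-- `b` does not move all points up. -/
def NS (b : Γ) : Prop := ∀ (X : Type) [LinearOrder X] [Nonempty X] (φ : Γ →* Aut X),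
  ¬ ∀ z, z < φ b z

theorem NS.noUp (h : NS b) {X : Type} [CompleteLinearOrder X] {φ : Γ →* Aut X} {α β : X}
    (hi : Irr φ α β) : ¬ Up φ α β b := fun hu => by
  have := hi.nonempty
  exact h (Set.Ioo α β) hi.act fun z => hu z.1 z.2.1 z.2.2

theorem NS.noDn (h : NS b) {X : Type} [CompleteLinearOrder X] {φ : Γ →* Aut X} {α β : X}
    (hi : Irr φ α β) : ¬ Dn φ α β b := fun hu =>
  h.noUp hi.dual fun y h1 h2 => hu (OrderDual.ofDual y) h2 h1

/-- `a = l ^ z * b ^ t` does not move all points up while `A = l ^ x * b ^ y` moves them down. -/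
def Bad (l b : Γ) (x y z t : ℤ) : Prop := ∀ (X : Type) [CompleteLinearOrder X] (φ : Γ →* Aut X)
  (α β : X), Irr φ α β → Up φ α β (l ^ z * b ^ t) → Dn φ α β (l ^ x * b ^ y) → False

theorem NS.bad (h : NS b) {x y z t : ℤ} (hxz : 0 < x * z) : Bad l b x y z t := by
  intro X _ φ α β hi h1 h2
  have h3 : ∃ f, α < f ∧ f < β ∧ φ b f = f := by
    by_contra hcon
    push Not at hcon
    rcases sign_of (γ := b) (φ := φ) (α := α) (β := β) hcon with h4 | h4
    · exact h.noUp hi h4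
    · exact h.noDn hi h4
  obtain ⟨f, f1, f2, f3⟩ := h3
  have h4 := h1 f f1 f2
  have h5 := h2 f f1 f2
  rw [map_mul, mul_apply, map_zpow, map_zpow, zpow_fix _ f3] at h4 h5
  rcases lt_trichotomy x 0 with hx | hx | hx
  · have hz := int_neg hxz hx
    exact absurd ((zpow_sign_neg _ f hz).1.mp h4)
      (not_lt.mpr ((zpow_sign_neg _ f hx).2.mp h5).le)
  · rw [hx, zero_mul] at hxz; exact absurd hxz (lt_irrefl _)
  · have hz := int_pos hxz hx
    exact absurd ((zpow_sign _ f hz).1.mp h4) (not_lt.mpr ((zpow_sign _ f hx).2.mp h5).le)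

theorem Qd.bad {ε : Bool} (hq : Qd ε l b) (hc : Commute l b) {x y z t : ℤ}
    (hd : x * t - y * z ≠ 0) (hxy : if ε then 0 < x * y else x * y < 0)
    (hzt : if ε then 0 < z * t else z * t < 0) (hxz : 0 < x * z) : Bad l b x y z t :=
  fun _ _ _ _ _ hi h1 h2 => not_up_dn_pos hi hc hq hd hxy hzt hxz h1 h2

end general

/-- The fixed points of `a` are global and the piece has the sign `ε`. -/
def Good (ε : Bool) (M : Piece) : Prop := Fc M ∧ Sgn ε M

theorem good_of {M : Piece} {w : List (Bool × ℤ)} {e x y z t : ℤ} {ε : Bool}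
    (hxz : if ε then 0 < x * z else x * z < 0)
    (h1 : FixG (bdA M w e ^ z * bda M w e ^ t)) (h2 : FixG (bdA M w e ^ x * bda M w e ^ y))
    (h3 : ∀ x' y' : ℤ, (x' = x ∧ y' = y) ∨ (x' = -x ∧ y' = -y) → 0 < x' * z →
      Bad (bdA M w e) (bda M w e) x' y' z t) : Good ε (openPiece M w e x y z t) := by
  refine ⟨h1, ?_⟩
  cases ε
  · intro X _ φ α β hi hu
    rcases hi.sign h2 with h4 | h4
    · exfalso
      refine h3 (-x) (-y) (Or.inr ⟨rfl, rfl⟩) (by
        simp only [Bool.false_eq_true, if_false] at hxz; linarith [neg_mul x z]) X φ α β hi hu ?_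
      have hc : Commute (bdA M w e) (bda M w e) := bda_eq M w e
      have e1 : bdA M w e ^ (-x) * bda M w e ^ (-y) = (bdA M w e ^ x * bda M w e ^ y)⁻¹ := by
        rw [mul_inv_rev, zpow_neg, zpow_neg, ((hc.zpow_zpow x y).inv_inv).eq]
      rw [e1, dn_inv]
      exact h4
    · exact h4.le
  · intro X _ φ α β hi hu
    rcases hi.sign h2 with h4 | h4
    · exact h4.ge
    · exact (h3 x y (Or.inl ⟨rfl, rfl⟩) (by simpa using hxz) X φ α β hi hu h4).elim

theorem good_zero {M : Piece} {w : List (Bool × ℤ)} (hN : cross w ≠ 0) {x y z t : ℤ} {ε : Bool}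
    (hM : Fc M) (hxz : if ε then 0 < x * z else x * z < 0) : Good ε (openPiece M w 0 x y z t) := by
  obtain ⟨D⟩ := dat M w hole (e := 0) (Or.inl rfl)
  have hx : x ≠ 0 := by rintro rfl; cases ε <;> simp at hxz
  have hz : z ≠ 0 := by rintro rfl; cases ε <;> simp at hxz
  have cf : CF (bdA M w 0) (bda M w 0) := by rw [D.eA, D.ea]; exact D.cf₀ hN hM
  have ns : NS (bda M w 0) := by
    intro X _ _ φ
    rw [D.ea]
    exact D.ns₀ hN X φ
  exact good_of hxz (free_of _ _ (bda_eq M w 0) cf ns z t hz)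
    (free_of _ _ (bda_eq M w 0) cf ns x y hx) fun x' y' _ h => ns.bad h

theorem good_one {M : Piece} {w : List (Bool × ℤ)} (hN : cross w ≠ 0) {e x y z t : ℤ}
    {ε ε' : Bool} (he : e = 1 ∨ e = -1) (hM : Good ε' M) (hd : IsUnit (x * t - y * z))
    (hxz : if ε then 0 < x * z else x * z < 0) (hxy : if ε' then 0 < x * y else x * y < 0)
    (hzt : if ε' then 0 < z * t else z * t < 0) : Good ε (openPiece M w e x y z t) := by
  obtain ⟨D⟩ := dat M w hole (e := e) (Or.inr he)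
  have cf : CF (bdA M w e) (bda M w e) := by
    rw [D.eA, D.ea]
    exact fun X _ φ x hA ha => D.fixLU hN he (hM.1.fb X) (hole_fb X) φ hA ha
  have qd : Qd ε' (bdA M w e) (bda M w e) := by
    rw [D.eA, D.ea]; exact D.qd hN he hM.1 hM.2
  have hc : Commute (bdA M w e) (bda M w e) := bda_eq M w e
  have hd0 : x * t - y * z ≠ 0 := hd.ne_zero
  refine good_of hxz (fixG_sgn hc cf qd hzt) (fixG_sgn hc cf qd hxy) fun x' y' h h' => ?_
  rcases h with ⟨rfl, rfl⟩ | ⟨rfl, rfl⟩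
  · exact qd.bad hc hd0 hxy hzt h'
  · refine qd.bad hc ?_ ?_ hzt h'
    · intro h3; apply hd0; linarith
    · rw [neg_mul_neg]; exact hxy

/-- **All signed nests are good.** -/
theorem Nest.good : ∀ (B : Nest) (ε : Bool), B.Sign ε → Good ε B.piece
  | .tang _, _, h => ⟨STang.fc _ (TSign.proper h), TSign.sgn h⟩
  | .enc B w e x y z t, ε, h => by
    obtain ⟨h1, h2, h3, h4⟩ := h
    rcases h4 with ⟨rfl, h5⟩ | ⟨he, h5⟩
    · rcases h5 with h5 | h5
      · exact good_zero h1 (Nest.good B true h5).1 h3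
      · exact good_zero h1 (Nest.good B false h5).1 h3
    · rcases h5 with ⟨h5, h6, h7⟩ | ⟨h5, h6, h7⟩
      · exact good_one h1 he (Nest.good B true h5) h2 h3 (by simpa using h6) (by simpa using h7)
      · exact good_one h1 he (Nest.good B false h5) h2 h3 (by simpa using h6) (by simpa using h7)

/-- **Twisted doubles of nests of opposite signs.** -/
theorem twisted_noLO {B₁ B₂ : Nest} {w : List (Bool × ℤ)} {e : ℤ} {ε : Bool} (hN : cross w ≠ 0)
    (he : e = 1 ∨ e = -1) (h₁ : B₁.Sign ε) (h₂ : B₂.Sign (!ε)) :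
    NoLO (PChainGrp (twisted B₁.piece w B₂.piece e)) := by
  have g₁ := Nest.good B₁ ε h₁
  have g₂ := Nest.good B₂ (!ε) h₂
  cases ε
  · exact closedNP hN he g₁.1 g₁.2 g₂.1 g₂.2
  · exact closedPN hN he g₁.1 g₁.2 g₂.1 g₂.2

end Pool.Agent.K7.H38.TW
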