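import Pool.Agent.K7.H38.TW.Main

set_option autoImplicit false

/-!
# The signs of tangles and of glued pieces
-/

namespace Pool.Agent.K7.H38.TW

open Pool.Agent.Y479.LS Aut Pool.Agent.K7.H39.TB Pool.Agent.K7.H38.KN Pool.Agent.W705.Borr

/-! ### tangles -/

/-- the sign of a piece -/
def Sgn (ε : Bool) (M : Piece) : Prop := if ε then SgP M else SgN M

theorem rat_up {X : Type} [LinearOrder X] (φ : Multiplicative ℤ →* Aut X) {p q : ℤ} (hp : p ≠ 0)
    (h : 0 ≤ p * q) {y : X} (h3 : y < φ (Multiplicative.ofAdd p) y) :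
    y ≤ φ (Multiplicative.ofAdd q) y := by
  rw [mz φ p] at h3
  rw [mz φ q]
  rcases lt_trichotomy q 0 with hq | rfl | hq
  · have hp' : p < 0 := lt_of_le_of_ne (by
      by_contra hc
      rw [_root_.not_le] at hc
      nlinarith) hp
    exact ((zpow_sign_neg _ y hq).1.mpr ((zpow_sign_neg _ y hp').1.mp h3)).le
  · rw [zpow_zero, one_apply]
  · have hp' : 0 < p := lt_of_le_of_ne (by
      by_contra hc
      rw [_root_.not_le] at hc
      nlinarith) hp.symm
    exact ((zpow_sign _ y hq).1.mpr ((zpow_sign _ y hp').1.mp h3)).le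

theorem rat_dn {X : Type} [LinearOrder X] (φ : Multiplicative ℤ →* Aut X) {p q : ℤ} (hp : p ≠ 0)
    (h : p * q ≤ 0) {y : X} (h3 : y < φ (Multiplicative.ofAdd p) y) :
    φ (Multiplicative.ofAdd q) y ≤ y := by
  rw [mz φ p] at h3
  rw [mz φ q]
  rcases lt_trichotomy q 0 with hq | rfl | hq
  · have hp' : 0 < p := lt_of_le_of_ne (by
      by_contra hc
      rw [_root_.not_le] at hc
      nlinarith) hp.symm
    exact ((zpow_sign_neg _ y hq).2.mpr ((zpow_sign _ y hp').1.mp h3)).le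
  · rw [zpow_zero, one_apply]
  · have hp' : p < 0 := lt_of_le_of_ne (by
      by_contra hc
      rw [_root_.not_le] at hc
      nlinarith) hp
    exact ((zpow_sign _ y hq).2.mpr ((zpow_sign_neg _ y hp').1.mp h3)).le

theorem rat_sgP {p q : ℤ} (hp : p ≠ 0) (h : 0 ≤ p * q) : SgP (STang.rat p q).piece :=
  fun _ _ φ _ _ _ hu y h1 h2 => rat_up φ hp h (hu y h1 h2)

theorem rat_sgN {p q : ℤ} (hp : p ≠ 0) (h : p * q ≤ 0) : SgN (STang.rat p q).piece :=
  fun _ _ φ _ _ _ hu y h1 h2 => rat_dn φ hp h (hu y h1 h2)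

theorem TSign.proper {ε : Bool} : ∀ {T : STang}, Nest.TSign ε T → T.Proper
  | .rat _ _, h => h.1
  | .pos _ _, _ => True.intro
  | .neg _ _, _ => True.intro

theorem TSign.sgn : ∀ {ε : Bool} {T : STang}, Nest.TSign ε T → Sgn ε T.piece
  | true, .rat _ _, h => rat_sgP h.1 (by simpa using h.2)
  | false, .rat _ _, h => rat_sgN h.1 (by simpa using h.2)
  | true, .pos _ _, _ => fun X _ φ α β _ hu y h1 h2 => by
      by_contra hc
      rw [_root_.not_le] at hc
      exact absurd (Tan.down_lt φ y hc) (not_lt.mpr (hu y h1 h2).le)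
  | false, .pos _ _, h => absurd h (by simp [Nest.TSign])
  | true, .neg _ _, h => absurd h (by simp [Nest.TSign])
  | false, .neg T _, _ => fun X _ φ α β _ hu y h1 h2 => by
      by_contra hc
      rw [_root_.not_le] at hc
      have h3 : y < φ (Tan.B T.south) y := Tan.up_lt φ y hc
      have h4 : y < φ (Tan.B T.south)⁻¹ y := hu y h1 h2
      rw [map_inv, lt_inv_iff] at h4
      exact absurd h3 (not_lt.mpr h4.le)

/-! ### the open piece -/

theorem hole_fbX (X : Type) [LinearOrder X] : FbX X hole := hole_fb X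

section opn

variable {M : Piece} {w : List (Bool × ℤ)} {e : ℤ}

theorem Dat.eA (D : Dat M w hole e) : bdA M w e = D.f₂ hole.A := by
  rw [← D.b1]
  have e1 : pix (l := twisted M w hole e) chn (w.length + 1) = holeIx M w e := pix_of_lt _ _
  change Glued.A (holeIx M w e) = Glued.A (pix chn (w.length + 1))
  rw [e1]

theorem Dat.ea (D : Dat M w hole e) : bda M w e = D.f₂ hole.a := by
  have e1 : pix (l := twisted M w hole e) chn (w.length + 1) = holeIx M w e := pix_of_lt _ _
  have h3 := congrArg Prod.snd D.b2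
  change Glued.B (pix chn (w.length + 1 + 1)) = Glued.B (pix chn (w.length + 1)) *
    (D.f₂ hole.a)⁻¹ at h3
  rw [← nx_pix, e1] at h3
  unfold bda
  rw [h3, mul_inv_rev, inv_inv, inv_mul_cancel_right]

/-- In intervals without global fixed points, `l` and `b` do not have opposite signs (`ε = true`),
respectively the same sign (`ε = false`). -/
def Qd (ε : Bool) {Γ : Type} [Group Γ] (l b : Γ) : Prop :=
  ∀ (X : Type) [CompleteLinearOrder X] (φ : Γ →* Aut X) (α β : X), Irr φ α β →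
    if ε then ¬ Opp φ α β l b else ¬ Opp φ α β l b⁻¹

theorem Dat.qd (D : Dat M w hole e) (hN : cross w ≠ 0) (he : e = 1 ∨ e = -1) (h : Fc M) {ε : Bool}
    (hs : Sgn ε M) : Qd ε (D.f₂ hole.A) (D.f₂ hole.a) := by
  intro X _ φ α β hi
  obtain ⟨R⟩ := D.red hN he
  have hV := D.fixV hN he h (fun X _ => hole_fb X)
  have i₁ := hi.comp D.f₁ hV
  cases ε
  · have q := quadN hi R (by
      rcases hi.sign hV with h | h
      · exact Or.inl ⟨h, hs X _ α β i₁ h⟩
      · exact Or.inr ⟨h, SgN.dn hs i₁ h⟩)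
    rw [up_inv, dn_inv] at q
    simp only [Bool.false_eq_true, if_false]
    rintro (⟨h1, h2⟩ | ⟨h1, h2⟩)
    · rw [dn_inv] at h2
      rcases q with ⟨q1, -⟩ | ⟨-, q2⟩
      · exact q1 h1.ge
      · exact q2 h2
    · rw [up_inv] at h2
      rcases q with ⟨-, q2⟩ | ⟨q1, -⟩
      · exact q2 h2
      · exact q1 h1.le
  · have q := quadP hi R (by
      rcases hi.sign hV with h | h
      · exact Or.inl ⟨h, hs X _ α β i₁ h⟩
      · exact Or.inr ⟨h, SgP.dn hs i₁ h⟩)
    rw [up_inv, dn_inv] at q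
    simp only [if_true]
    rintro (⟨h1, h2⟩ | ⟨h1, h2⟩)
    · rcases q with ⟨q1, -⟩ | ⟨-, q2⟩
      · exact q1 h1.ge
      · exact q2 h2
    · rcases q with ⟨-, q2⟩ | ⟨q1, -⟩
      · exact q2 h2
      · exact q1 h1.le

end opn

section general

variable {Γ : Type} [Group Γ] {l b : Γ}

/-- the common fixed points of `l` and `b` are global -/
def CF (l b : Γ) : Prop := ∀ (X : Type) [CompleteLinearOrder X] (φ : Γ →* Aut X) (x : X),
  φ l x = x → φ b x = x → ∀ γ, φ γ x = x

theorem CF.inv_right (h : CF l b) : CF l b⁻¹ := fun X _ φ x h1 h2 => h X φ x h1 (by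
  rw [map_inv] at h2
  rw [← inv_inv (φ b)]
  exact inv_fix h2)

/-- fixed points of `l ^ z * b ^ t`, `z t > 0` -/
theorem fixG_pos (hc : Commute l b) (hg : CF l b) (hq : Qd true l b) {z t : ℤ} (hzt : 0 < z * t) :
    FixG (l ^ z * b ^ t) := by
  intro X _ φ x hx
  by_contra hcon
  obtain ⟨α, β, hi, h1, h2⟩ := exists_irr φ x hcon
  have h3 := hi.opp_of_fix hc (fun y h4 h5 => hg X φ y h4 h5) hzt h1 h2 hx
  have h4 := hq X φ α β hi
  simp only [if_true] at h4
  exact h4 h3

theorem Qd.inv (h : Qd false l b) : Qd true l b⁻¹ := fun X _ φ α β hi => by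
  have := h X φ α β hi
  simpa using this

theorem inv_zpow' (b : Γ) (t : ℤ) : b⁻¹ ^ (-t) = b ^ t := by rw [inv_zpow, zpow_neg, inv_inv]

theorem fixG_sgn (hc : Commute l b) (hg : CF l b) {ε : Bool} (hq : Qd ε l b) {z t : ℤ}
    (hzt : if ε then 0 < z * t else z * t < 0) : FixG (l ^ z * b ^ t) := by
  cases ε
  · have h1 := fixG_pos hc.inv_right hg.inv_right hq.inv (z := z) (t := -t) (by
      simp only [Bool.false_eq_true, if_false] at hzt; nlinarith)
    rwa [inv_zpow'] at h1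
  · exact fixG_pos hc hg hq (by simpa using hzt)

/-- Opposite signs of `a` and `A` imply opposite signs of `l` and `b`. -/
theorem opp_of {X : Type} [CompleteLinearOrder X] {φ : Γ →* Aut X} {α β : X} (hi : Irr φ α β)
    (hc : Commute l b) {x y z t : ℤ} (hd : x * t - y * z ≠ 0) (hxy : 0 < x * y) (hzt : 0 < z * t)
    (hxz : 0 < x * z) (h1 : Up φ α β (l ^ z * b ^ t)) (h2 : Dn φ α β (l ^ x * b ^ y)) :
    Opp φ α β l b := by
  have e1 : b ^ (x * t - y * z) = (l ^ z * b ^ t) ^ x * (l ^ x * b ^ y) ^ (-z) := by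
    rw [(hc.zpow_zpow z t).mul_zpow, (hc.zpow_zpow x y).mul_zpow, ← zpow_mul, ← zpow_mul,
      ← zpow_mul, ← zpow_mul]
    have h3 : Commute (b ^ (t * x)) (l ^ (x * -z)) := (hc.zpow_zpow (x * -z) (t * x)).symm
    calc b ^ (x * t - y * z) = 1 * b ^ (t * x + y * -z) := by rw [one_mul]; congr 1; ring
      _ = l ^ (z * x + x * -z) * (b ^ (t * x + y * -z)) := by
        rw [show z * x + x * -z = 0 by ring, zpow_zero]
      _ = l ^ (z * x) * (l ^ (x * -z) * b ^ (t * x)) * b ^ (y * -z) := by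
        rw [zpow_add, zpow_add]; simp only [mul_assoc]
      _ = _ := by rw [← h3.eq]; simp only [mul_assoc]
  have e2 : l ^ (x * t - y * z) = (l ^ z * b ^ t) ^ (-y) * (l ^ x * b ^ y) ^ t := by
    rw [(hc.zpow_zpow z t).mul_zpow, (hc.zpow_zpow x y).mul_zpow, ← zpow_mul, ← zpow_mul,
      ← zpow_mul, ← zpow_mul]
    have h3 : Commute (b ^ (t * -y)) (l ^ (x * t)) := (hc.zpow_zpow (x * t) (t * -y)).symm
    calc l ^ (x * t - y * z) = l ^ (z * -y + x * t) * 1 := by rw [mul_one]; congr 1; ring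
      _ = l ^ (z * -y + x * t) * (b ^ (t * -y + y * t)) := by
        rw [show t * -y + y * t = 0 by ring, zpow_zero]
      _ = l ^ (z * -y) * (l ^ (x * t) * b ^ (t * -y)) * b ^ (y * t) := by
        rw [zpow_add, zpow_add]; simp only [mul_assoc]
      _ = _ := by rw [← h3.eq]; simp only [mul_assoc]
  have key : (Up φ α β (b ^ (x * t - y * z)) ∧ Dn φ α β (l ^ (x * t - y * z))) ∨
      (Dn φ α β (b ^ (x * t - y * z)) ∧ Up φ α β (l ^ (x * t - y * z))) := by
    rw [e1, e2]
    rcases lt_trichotomy x 0 with hx | hx | hx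
    · have hy := int_neg hxy hx
      have hz := int_neg hxz hx
      have ht := int_neg hzt hz
      exact Or.inr ⟨(h1.zpow_neg hx).mul hi (h2.zpow (by omega)),
        (h1.zpow (by omega)).mul hi (h2.zpow_neg ht)⟩
    · rw [hx, zero_mul] at hxy; exact absurd hxy (lt_irrefl _)
    · have hy := int_pos hxy hx
      have hz := int_pos hxz hx
      have ht := int_pos hzt hz
      exact Or.inl ⟨(h1.zpow hx).mul hi (h2.zpow_neg (by omega)),
        (h1.zpow_neg (by omega)).mul hi (h2.zpow ht)⟩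
  rcases lt_or_gt_of_ne hd with hd | hd
  · rcases key with ⟨k1, k2⟩ | ⟨k1, k2⟩
    · exact Or.inl ⟨up_of_zpow_neg hd k2, dn_of_zpow_neg hd k1⟩
    · exact Or.inr ⟨dn_of_zpow_neg hd k2, up_of_zpow_neg hd k1⟩
  · rcases key with ⟨k1, k2⟩ | ⟨k1, k2⟩
    · exact Or.inr ⟨dn_of_zpow hd k2, up_of_zpow hd k1⟩
    · exact Or.inl ⟨up_of_zpow hd k2, dn_of_zpow hd k1⟩

/-- The sign of the new piece. -/
theorem not_up_dn_pos {X : Type} [CompleteLinearOrder X] {φ : Γ →* Aut X} {α β : X}
    (hi : Irr φ α β) (hc : Commute l b) {ε : Bool} (hq : Qd ε l b) {x y z t : ℤ}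
    (hd : x * t - y * z ≠ 0) (hxy : if ε then 0 < x * y else x * y < 0)
    (hzt : if ε then 0 < z * t else z * t < 0) (hxz : 0 < x * z)
    (h1 : Up φ α β (l ^ z * b ^ t)) (h2 : Dn φ α β (l ^ x * b ^ y)) : False := by
  have hq' := hq X φ α β hi
  cases ε
  · simp only [Bool.false_eq_true, if_false] at hq' hxy hzt
    rw [← inv_zpow' b t] at h1
    rw [← inv_zpow' b y] at h2
    exact hq' (opp_of hi hc.inv_right (x := x) (y := -y) (z := z) (t := -t)
      (by intro h; apply hd; linarith) (by linarith [mul_neg x y]) (by linarith [mul_neg z t]) hxz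
      h1 h2)
  · simp only [if_true] at hq' hxy hzt
    exact hq' (opp_of hi hc hd hxy hzt hxz h1 h2)

end general

end Pool.Agent.K7.H38.TW
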