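import Pool.Agent.K7.H38.KN.PPub

set_option autoImplicit false

/-!
# Twisted doubles on three strands: the definitions used in the statement
-/

namespace Pool.Agent.K7.H38.TW

open Pool.Agent.Y479.LS Pool.Agent.K7.H39.TB Pool.Agent.K7.H38.KN

/-- The full twist `Δ ^ (2 e)` of the three strands, for `e = 1`, `e = -1` and `e = 0`:
`Δ ^ 2 = σ₁ σ₂ σ₁ σ₁ σ₂ σ₁`. -/
def turn (e : ℤ) : List (Bool × ℤ) :=
  [(true, e), (false, e), (true, e), (true, e), (false, e), (true, e)]

/-- The closed chain `M₁ w M₂ w'`, where `M₁`, `M₂` are pieces between the strands 1 and 2 and `w`, `w'`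
are braids on three strands. -/
def chain (M₁ : Piece) (w : List (Bool × ℤ)) (M₂ : Piece) (w' : List (Bool × ℤ)) :
    List (Bool × Piece) :=
  (true, M₁) :: (w.map ppow ++ (true, M₂) :: w'.map ppow)

/-- The closed chain `M₁ w M₂ w⁻¹ Δ ^ (2 e)`. -/
abbrev twisted (M₁ : Piece) (w : List (Bool × ℤ)) (M₂ : Piece) (e : ℤ) : List (Bool × Piece) :=
  chain M₁ w M₂ (inv w ++ turn e)

theorem clen {M₁ M₂ : Piece} {w w' : List (Bool × ℤ)} :
    (chain M₁ w M₂ w').length = w.length + w'.length + 2 := by
  simp [chain]; ring

/-- The fundamental group of the manifold `M ∪ X(w, e)`: the closed chain `M w ∘ w⁻¹ Δ ^ (2 e)` with a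
hole `∘`. -/
abbrev OpenGrp (M : Piece) (w : List (Bool × ℤ)) (e : ℤ) : Type := PChainGrp (twisted M w hole e)

/-- the index of the hole -/
def holeIx (M : Piece) (w : List (Bool × ℤ)) (e : ℤ) : Fin (twisted M w hole e).length :=
  ⟨w.length + 1, by unfold twisted; rw [clen]; omega⟩

/-- The element `A` of the boundary torus of the hole: the region between the strands 2 and 3. -/
def bdA (M : Piece) (w : List (Bool × ℤ)) (e : ℤ) : OpenGrp M w e := Glued.A (holeIx M w e)

/-- The element `a` of the boundary torus of the hole, the product of the inverse of the region between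
the strands 1 and 2 after the hole and of the region between the strands 1 and 2 before the hole. -/
def bda (M : Piece) (w : List (Bool × ℤ)) (e : ℤ) : OpenGrp M w e :=
  (Glued.B (nx (holeIx M w e)))⁻¹ * Glued.B (holeIx M w e)

theorem get_holeIx (M : Piece) (w : List (Bool × ℤ)) (e : ℤ) :
    (twisted M w hole e).get (holeIx M w e) = (true, hole) := by
  change (twisted M w hole e)[w.length + 1]'(by unfold twisted; rw [clen]; omega) = (true, hole)
  simp [twisted, chain]

theorem bda_eq (M : Piece) (w : List (Bool × ℤ)) (e : ℤ) :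
    bdA M w e * bda M w e = bda M w e * bdA M w e := by
  obtain ⟨h1, -, h3⟩ := Glued.relA (M := fun i : Fin (twisted M w hole e).length =>
    ((twisted M w hole e).get i).2) (κ := fun i => ((twisted M w hole e).get i).1) (holeIx M w e)
    (by rw [get_holeIx])
  unfold bdA bda
  rw [h3, h1, mul_inv_rev, inv_inv, inv_mul_cancel_right, ← map_mul, ← map_mul, Piece.comm]

/-- The manifold `M ∪ X(w, e)`, with the boundary elements `A = bdA ^ x * bda ^ y` and
`a = bdA ^ z * bda ^ t`. -/
def openPiece (M : Piece) (w : List (Bool × ℤ)) (e x y z t : ℤ) : Piece where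
  P := OpenGrp M w e
  grp := inferInstance
  A := bdA M w e ^ x * bda M w e ^ y
  a := bdA M w e ^ z * bda M w e ^ t
  comm := by
    have h : Commute (bdA M w e) (bda M w e) := bda_eq M w e
    exact ((((Commute.refl (bdA M w e)).zpow_zpow z x).mul_left (h.symm.zpow_zpow t x)).mul_right
      ((h.zpow_zpow z y).mul_left ((Commute.refl (bda M w e)).zpow_zpow t y))).eq

/-- Manifolds with a torus boundary that are glued from double branched covers of tangles and from
manifolds `X(w, e)`. `enc B w e x y z t` is `B ∪ X(w, e)`, whose boundary torus is parametrised by the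
matrix with the rows `x y` and `z t`. -/
inductive Nest : Type 1
  | tang (T : STang)
  | enc (B : Nest) (w : List (Bool × ℤ)) (e x y z t : ℤ)

namespace Nest

/-- the fundamental group with the boundary elements -/
def piece : Nest → Piece
  | tang T => T.piece
  | enc B w e x y z t => openPiece B.piece w e x y z t

/-- The tangles of sign `ε` (`true`: positive): the rational tangles `p / q`, `p ≠ 0`, with `p q ≥ 0`,
respectively `p q ≤ 0`, and the alternating tangles of this sign. -/
def TSign (ε : Bool) : STang → Prop
  | .rat p q => p ≠ 0 ∧ (if ε then 0 ≤ p * q else p * q ≤ 0)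
  | .pos _ _ => ε = true
  | .neg _ _ => ε = false

/-- The signed nests: the tangles have the sign `ε`; for `B ∪ X(w, e)`, `B` is a signed nest and
`cross w ≠ 0`, `e` is `0`, `1` or `-1`, the matrix has determinant `1` or `-1`, and `x z` has the sign
`ε`; if `e ≠ 0` then `x y` and `z t` have the sign of `B`. -/
def Sign : Bool → Nest → Prop
  | ε, tang T => TSign ε T
  | ε, enc B w e x y z t => cross w ≠ 0 ∧ IsUnit (x * t - y * z) ∧
      (if ε then 0 < x * z else x * z < 0) ∧
      ((e = 0 ∧ (Sign true B ∨ Sign false B)) ∨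
        ((e = 1 ∨ e = -1) ∧ ((Sign true B ∧ 0 < x * y ∧ 0 < z * t) ∨
          (Sign false B ∧ x * y < 0 ∧ z * t < 0))))

end Nest

end Pool.Agent.K7.H38.TW
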