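import Pool.Agent.K7.H38.KN.Free

set_option autoImplicit false

/-!
# Positive words: the commutator, first and last factors, monotonicity
-/

namespace Pool.Agent.K7.H38.TW

open Pool.Agent.Y479.LS Aut Pool.Agent.K7.H38.KN

section algebra

variable {G : Type*} [Group G]

/-- The commutator of a state does not change. -/
theorem run_comm : ∀ (l : List Bool) (D x : G),
    (run l (D, x)).1 * (run l (D, x)).2 * (run l (D, x)).1⁻¹ * (run l (D, x)).2⁻¹ =
      D * x * D⁻¹ * x⁻¹
  | [], _, _ => rfl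
  | true :: l, D, x => by rw [run_true, run_comm l D (x * D)]; group
  | false :: l, D, x => by rw [run_false, run_comm l (D * x) x]; group

/-- the monoid generated by `D` and `x` -/
def MM (D x : G) : Submonoid G := Submonoid.closure {D, x}

theorem MM_fst (D x : G) : D ∈ MM D x := Submonoid.subset_closure (Or.inl rfl)
theorem MM_snd (D x : G) : x ∈ MM D x := Submonoid.subset_closure (Or.inr rfl)

theorem MM_le {D x D' x' : G} (h1 : D' ∈ MM D x) (h2 : x' ∈ MM D x) : MM D' x' ≤ MM D x := by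
  refine Submonoid.closure_le.mpr ?_
  rintro y (rfl | hy)
  · exact h1
  · rw [Set.mem_singleton_iff] at hy
    rw [hy]; exact h2

theorem run_heads : ∀ (l : List Bool) (D x : G),
    (∃ W ∈ MM D x, (run l (D, x)).1 = D * W) ∧ ∃ W ∈ MM D x, (run l (D, x)).2 = x * W
  | [], D, x => ⟨⟨1, (MM D x).one_mem, (mul_one _).symm⟩, ⟨1, (MM D x).one_mem, (mul_one _).symm⟩⟩
  | true :: l, D, x => by
    have h := MM_le (MM_fst D x) ((MM D x).mul_mem (MM_snd D x) (MM_fst D x))
    obtain ⟨⟨W, hW, h1⟩, ⟨V, hV, h2⟩⟩ := run_heads l D (x * D)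
    refine ⟨⟨W, h hW, h1⟩, ⟨D * V, (MM D x).mul_mem (MM_fst D x) (h hV), ?_⟩⟩
    rw [run_true, h2, mul_assoc]
  | false :: l, D, x => by
    have h := MM_le ((MM D x).mul_mem (MM_fst D x) (MM_snd D x)) (MM_snd D x)
    obtain ⟨⟨W, hW, h1⟩, ⟨V, hV, h2⟩⟩ := run_heads l (D * x) x
    refine ⟨⟨x * W, (MM D x).mul_mem (MM_snd D x) (h hW), ?_⟩, ⟨V, h hV, h2⟩⟩
    rw [run_false, h1, mul_assoc]

/-- The first component of the final state begins with `D x`. -/
theorem run_head : ∀ (l : List Bool), false ∈ l → ∀ (D x : G),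
    ∃ W ∈ MM D x, (run l (D, x)).1 = D * x * W
  | [], h, _, _ => absurd h List.not_mem_nil
  | true :: l, h, D, x => by
    have h' : false ∈ l := by
      rcases List.mem_cons.mp h with h | h
      · exact absurd h (by decide)
      · exact h
    obtain ⟨W, hW, h1⟩ := run_head l h' D (x * D)
    refine ⟨D * W, (MM D x).mul_mem (MM_fst D x)
      (MM_le (MM_fst D x) ((MM D x).mul_mem (MM_snd D x) (MM_fst D x)) hW), ?_⟩
    rw [run_true, h1]; group
  | false :: l, _, D, x => by
    obtain ⟨⟨W, hW, h1⟩, -⟩ := run_heads l (D * x) x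
    exact ⟨W, MM_le ((MM D x).mul_mem (MM_fst D x) (MM_snd D x)) (MM_snd D x) hW,
      by rw [run_false, h1]⟩

theorem PM_run : ∀ (l : List Bool) (D x : G), PM x D ≤ PM (run l (D, x)).2 (run l (D, x)).1
  | [], _, _ => le_rfl
  | true :: l, D, x => (PM_true x D).trans (PM_run l D (x * D))
  | false :: l, D, x => (PM_false x D).trans (PM_run l (D * x) x)

theorem snd_head : ∀ (l : List Bool) (D x : G),
    ∃ W ∈ PM (run l (D, x)).2 (run l (D, x)).1, x = (run l (D, x)).2 * W
  | [], _, _ => ⟨1, Submonoid.one_mem _, (mul_one _).symm⟩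
  | true :: l, D, x => by
    obtain ⟨W, hW, h1⟩ := snd_head l D (x * D)
    refine ⟨W * D⁻¹, Submonoid.mul_mem _ hW (PM_run l D (x * D) (d_mem _ _)), ?_⟩
    rw [run_true, ← mul_assoc, ← h1, mul_inv_cancel_right]
  | false :: l, D, x => snd_head l (D * x) x

/-- The inverse of the first component of the initial state begins with the second component of the
final state. -/
theorem fst_head : ∀ (l : List Bool), false ∈ l → ∀ (D x : G),
    ∃ W ∈ PM (run l (D, x)).2 (run l (D, x)).1, D⁻¹ = (run l (D, x)).2 * W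
  | [], h, _, _ => absurd h List.not_mem_nil
  | true :: l, h, D, x => by
    have h' : false ∈ l := by
      rcases List.mem_cons.mp h with h | h
      · exact absurd h (by decide)
      · exact h
    exact fst_head l h' D (x * D)
  | false :: l, _, D, x => by
    obtain ⟨W, hW, h1⟩ := snd_head l (D * x) x
    refine ⟨W * (D * x)⁻¹, Submonoid.mul_mem _ hW (PM_run l (D * x) x (d_mem _ _)), ?_⟩
    rw [run_false, ← mul_assoc, ← h1]; group

end algebra

section order

variable {X : Type*} [LinearOrder X]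

theorem fwd_lt : ∀ (l : List Bool) (D x E y : Aut X), (∀ z, D z < E z) → (∀ z, x z < y z) →
    ∀ z, (run l (D, x)).1 z < (run l (E, y)).1 z
  | [], _, _, _, _, h1, _ => h1
  | true :: l, D, x, E, y, h1, h2 => fwd_lt l D (x * D) E (y * E) h1 fun z => by
      rw [mul_apply, mul_apply]
      exact (h2 _).trans ((y.lt_iff).mpr (h1 z))
  | false :: l, D, x, E, y, h1, h2 => fwd_lt l (D * x) x (E * y) y (fun z => by
      rw [mul_apply, mul_apply]
      exact (h1 _).trans ((E.lt_iff).mpr (h2 z))) h2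

/-- The first component of the final state is strictly monotone. -/
theorem fwd : ∀ (l : List Bool), false ∈ l → ∀ (D x E y : Aut X), (∀ z, D z ≤ E z) →
    (∀ z, x z < y z) → ∀ z, (run l (D, x)).1 z < (run l (E, y)).1 z
  | [], h, _, _, _, _, _, _ => absurd h List.not_mem_nil
  | true :: l, h, D, x, E, y, h1, h2 => by
    have h' : false ∈ l := by
      rcases List.mem_cons.mp h with h | h
      · exact absurd h (by decide)
      · exact h
    exact fwd l h' D (x * D) E (y * E) h1 fun z => by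
      rw [mul_apply, mul_apply]
      exact (h2 _).trans_le ((y.le_iff).mpr (h1 z))
  | false :: l, _, D, x, E, y, h1, h2 => fwd_lt l (D * x) x (E * y) y (fun z => by
      rw [mul_apply, mul_apply]
      exact (h1 _).trans_lt ((E.lt_iff).mpr (h2 z))) h2

theorem conj_inv_le {l k : Aut X} (h : ∀ z, z ≤ l z) (z : X) : (k * l⁻¹ * k⁻¹) z ≤ z := by
  have h1 := h (l⁻¹ (k⁻¹ z))
  rw [self_inv] at h1
  rw [mul_apply, mul_apply]
  refine ((k.le_iff).mpr h1).trans ?_
  rw [self_inv]

theorem le_conj_inv {l k : Aut X} (h : ∀ z, l z ≤ z) (z : X) : z ≤ (k * l⁻¹ * k⁻¹) z := by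
  have h1 := h (l⁻¹ (k⁻¹ z))
  rw [self_inv] at h1
  rw [mul_apply, mul_apply]
  refine le_trans ?_ ((k.le_iff).mpr h1)
  rw [self_inv]

variable [Nonempty X] {p : List Bool} {m g v l a m' g' l' a' u k : Aut X}

/-- `v` moves all points up; then `l` moves a point down. -/
theorem not_ge (hp : false ∈ p) (h1 : run p (m, g) = (l, a)) (h2 : run p (m, g * v) = (l', a'))
    (hl : l' = k * l⁻¹ * k⁻¹) (hv : ∀ z, z < v z) : ¬ ∀ z, z ≤ l z := by
  intro h
  have h3 := fwd p hp m g m (g * v) (fun z => le_rfl) (fun z => by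
    rw [mul_apply, lt_iff]; exact hv z) (Classical.arbitrary X)
  rw [h1, h2] at h3
  change l _ < l' _ at h3
  rw [hl] at h3
  exact absurd ((h _).trans_lt (h3.trans_le (conj_inv_le h _))) (lt_irrefl _)

/-- `v` moves all points down; then `l` moves a point up. -/
theorem not_le (hp : false ∈ p) (h1 : run p (m, g) = (l, a)) (h2 : run p (m, g * v) = (l', a'))
    (hl : l' = k * l⁻¹ * k⁻¹) (hv : ∀ z, v z < z) : ¬ ∀ z, l z ≤ z := by
  intro h
  have h3 := fwd p hp m (g * v) m g (fun z => le_rfl) (fun z => by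
    rw [mul_apply, lt_iff]; exact hv z) (Classical.arbitrary X)
  rw [h1, h2] at h3
  change l' _ < l _ at h3
  rw [hl] at h3
  exact absurd ((le_conj_inv h _).trans_lt (h3.trans_le (h _))) (lt_irrefl _)

/-- `m` moves no point down; then `u` does not move all points down. -/
theorem not_dn (hp : false ∈ p) (h1 : run p (m, g) = (l, a)) (h2 : run p (m', g') = (l, a * u))
    (hm : m' = k * m⁻¹ * k⁻¹) (h : ∀ z, z ≤ m z) : ¬ ∀ z, u z < z := by
  intro hu
  obtain ⟨-, -, h3⟩ := back p m' g' m g (fun z => by rw [h1, h2]) (fun z => by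
    rw [h1, h2]
    change (a * u) z < a z
    rw [mul_apply, lt_iff]; exact hu z)
  have h4 := h3 hp (Classical.arbitrary X)
  rw [hm] at h4
  exact absurd ((h _).trans_lt (h4.trans_le (conj_inv_le h _))) (lt_irrefl _)

/-- `m` moves no point up; then `u` does not move all points up. -/
theorem not_up (hp : false ∈ p) (h1 : run p (m, g) = (l, a)) (h2 : run p (m', g') = (l, a * u))
    (hm : m' = k * m⁻¹ * k⁻¹) (h : ∀ z, m z ≤ z) : ¬ ∀ z, z < u z := by
  intro hu
  obtain ⟨-, -, h3⟩ := back p m g m' g' (fun z => by rw [h1, h2]) (fun z => by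
    rw [h1, h2]
    change a z < (a * u) z
    rw [mul_apply, lt_iff]; exact hu z)
  have h4 := h3 hp (Classical.arbitrary X)
  rw [hm] at h4
  exact absurd ((le_conj_inv h _).trans_lt (h4.trans_le (h _))) (lt_irrefl _)

end order

section fixed

variable {X : Type*} [LinearOrder X]

theorem inv_fix {l : Aut X} {x : X} (h : l x = x) : l⁻¹ x = x := by
  rw [← l.inj, self_inv, h]

theorem two_step {f₁ f₂ K : Aut X} {x c : X} (hc : x < c) (h1 : ∀ z, x ≤ z → c ≤ f₁ z)
    (h1' : ∀ z, x < z → c < f₁ z) (h2 : ∀ z, x ≤ z → c ≤ f₂ z) (h2' : ∀ z, x < z → c < f₂ z)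
    (hK : K x < c) : ¬ (f₂ * f₁ = K ∨ f₁ * f₂ = K) := by
  rintro (h | h)
  · rw [← h, mul_apply] at hK
    exact absurd (hK.trans (h2' _ (hc.trans_le (h1 x le_rfl)))) (lt_irrefl _)
  · rw [← h, mul_apply] at hK
    exact absurd (hK.trans (h1' _ (hc.trans_le (h2 x le_rfl)))) (lt_irrefl _)

theorem closure_up {S : Set (Aut X)} {x : X} (hS : ∀ f ∈ S, x ≤ f x) {W : Aut X}
    (hW : W ∈ Submonoid.closure S) :
    (∀ z, x ≤ z → x ≤ W z) ∧ (∀ z, x < z → x < W z) := by
  induction hW using Submonoid.closure_induction with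
  | mem f hf => exact ⟨fun z hz => (hS f hf).trans ((f.le_iff).mpr hz),
      fun z hz => (hS f hf).trans_lt ((f.lt_iff).mpr hz)⟩
  | one => exact ⟨fun _ h => h, fun _ h => h⟩
  | mul f g _ _ h1 h2 => exact ⟨fun z hz => h1.1 _ (h2.1 z hz), fun z hz => h1.2 _ (h2.2 z hz)⟩

theorem MM_up {m g : Aut X} {x : X} (hm : x ≤ m x) (hg : x ≤ g x) {W : Aut X} (hW : W ∈ MM m g) :
    (∀ z, x ≤ z → x ≤ W z) ∧ (∀ z, x < z → x < W z) := by
  refine closure_up ?_ hW
  rintro f (rfl | hf)
  · exact hm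
  · rw [Set.mem_singleton_iff] at hf
    rw [hf]; exact hg

theorem PM_up {a l : Aut X} {x : X} (ha : x ≤ a x) (hl : l x = x) {W : Aut X} (hW : W ∈ PM a l) :
    (∀ z, x ≤ z → x ≤ W z) ∧ (∀ z, x < z → x < W z) := by
  refine closure_up ?_ hW
  rintro f (rfl | hf)
  · exact ha
  · rw [Set.mem_singleton_iff] at hf
    rw [hf, inv_fix hl]

variable {p : List Bool} {m g v l a m' g' l' a' u : Aut X} {x : X}

theorem fix_g_up (hp : false ∈ p) (h1 : run p (m, g) = (l, a)) (h2 : run p (m, g * v) = (l', a'))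
    (hK : l' * l = m * g * m⁻¹ * g⁻¹ ∨ l * l' = m * g * m⁻¹ * g⁻¹) (hm : m x = x) (hv : v x = x) :
    ¬ x < g x := by
  intro hg
  obtain ⟨W, hW, e1⟩ := run_head p hp m g
  obtain ⟨V, hV, e2⟩ := run_head p hp m (g * v)
  rw [h1] at e1
  rw [h2] at e2
  change l = _ at e1
  change l' = _ at e2
  have hgv : (g * v) x = g x := by rw [mul_apply, hv]
  have uW := MM_up hm.ge hg.le hW
  have uV := MM_up (m := m) (g := g * v) hm.ge (by rw [hgv]; exact hg.le) hV
  have hc : x < m (g x) := by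
    rw [← hm] at hg ⊢
    rw [hm] at hg ⊢
    have := (m.lt_iff).mpr hg
    rwa [hm] at this
  refine two_step (f₁ := l) (f₂ := l') (K := m * g * m⁻¹ * g⁻¹) (x := x) (c := m (g x)) hc
    ?_ ?_ ?_ ?_ ?_ hK
  · intro z hz
    rw [e1, mul_apply, mul_apply]
    exact (m.le_iff).mpr ((g.le_iff).mpr (uW.1 z hz))
  · intro z hz
    rw [e1, mul_apply, mul_apply]
    exact (m.lt_iff).mpr ((g.lt_iff).mpr (uW.2 z hz))
  · intro z hz
    rw [e2, mul_apply, mul_apply, ← hgv]
    exact (m.le_iff).mpr (((g * v).le_iff).mpr (uV.1 z hz))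
  · intro z hz
    rw [e2, mul_apply, mul_apply, ← hgv]
    exact (m.lt_iff).mpr (((g * v).lt_iff).mpr (uV.2 z hz))
  · rw [mul_apply, mul_apply, mul_apply]
    refine (m.lt_iff).mpr ((g.lt_iff).mpr ?_)
    have h3 : g⁻¹ x < x := by rw [← g.lt_iff, self_inv]; exact hg
    rw [← m.lt_iff, self_inv, hm]
    exact h3

/-- The fixed points of `m` and `v` are fixed by `g`. -/
theorem fix_g (hp : false ∈ p) (h1 : run p (m, g) = (l, a)) (h2 : run p (m, g * v) = (l', a'))
    (hK : l' * l = m * g * m⁻¹ * g⁻¹ ∨ l * l' = m * g * m⁻¹ * g⁻¹) (hm : m x = x) (hv : v x = x) :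
    g x = x := by
  rcases lt_trichotomy (g x) x with h | h | h
  · exfalso
    refine fix_g_up (X := Xᵒᵈ) (m := Aut.dual m) (g := Aut.dual g) (v := Aut.dual v)
      (l := Aut.dual l) (a := Aut.dual a) (l' := Aut.dual l') (a' := Aut.dual a')
      (x := OrderDual.toDual x) hp ?_ ?_ ?_ hm hv h
    · rw [run_map, h1]
    · rw [← map_mul, run_map, h2]
    · rcases hK with hK | hK
      · left; rw [← map_mul, hK]; simp only [map_mul, map_inv]
      · right; rw [← map_mul, hK]; simp only [map_mul, map_inv]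
  · exact h
  · exact absurd h (fix_g_up hp h1 h2 hK hm hv)

theorem fix_a_up (hp : false ∈ p) (h1 : run p (m, g) = (l, a)) (h2 : run p (m', g') = (l, a * u))
    (hK : m' * m = l * a * l⁻¹ * a⁻¹ ∨ m * m' = l * a * l⁻¹ * a⁻¹) (hl : l x = x) (hu : u x = x) :
    ¬ x < a x := by
  intro ha
  obtain ⟨W, hW, e1⟩ := fst_head p hp m g
  obtain ⟨V, hV, e2⟩ := fst_head p hp m' g'
  rw [h1] at e1 hW
  rw [h2] at e2 hV
  change W ∈ PM a l at hW
  change V ∈ PM (a * u) l at hV
  change m⁻¹ = a * W at e1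
  change m'⁻¹ = a * u * V at e2
  have hau : (a * u) x = a x := by rw [mul_apply, hu]
  have uW := PM_up ha.le hl hW
  have uV := PM_up (a := a * u) (by rw [hau]; exact ha.le) hl hV
  refine two_step (f₁ := m⁻¹) (f₂ := m'⁻¹) (K := (l * a * l⁻¹ * a⁻¹)⁻¹) (x := x) (c := a x) ha
    ?_ ?_ ?_ ?_ ?_ ?_
  · intro z hz
    rw [e1, mul_apply]
    exact (a.le_iff).mpr (uW.1 z hz)
  · intro z hz
    rw [e1, mul_apply]
    exact (a.lt_iff).mpr (uW.2 z hz)
  · intro z hz
    rw [e2, mul_apply (a * u) V, ← hau]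
    exact ((a * u).le_iff).mpr (uV.1 z hz)
  · intro z hz
    rw [e2, mul_apply (a * u) V, ← hau]
    exact ((a * u).lt_iff).mpr (uV.2 z hz)
  · have e : (l * a * l⁻¹ * a⁻¹)⁻¹ = a * l * a⁻¹ * l⁻¹ := by group
    rw [e, mul_apply, mul_apply, mul_apply, inv_fix hl]
    refine (a.lt_iff).mpr ?_
    have h3 : a⁻¹ x < x := by rw [← a.lt_iff, self_inv]; exact ha
    have h4 := (l.lt_iff).mpr h3
    rwa [hl] at h4
  · rcases hK with hK | hK
    · right; rw [← mul_inv_rev, hK]
    · left; rw [← mul_inv_rev, hK]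

/-- The fixed points of `l` and `u` are fixed by `a`. -/
theorem fix_a (hp : false ∈ p) (h1 : run p (m, g) = (l, a)) (h2 : run p (m', g') = (l, a * u))
    (hK : m' * m = l * a * l⁻¹ * a⁻¹ ∨ m * m' = l * a * l⁻¹ * a⁻¹) (hl : l x = x) (hu : u x = x) :
    a x = x := by
  rcases lt_trichotomy (a x) x with h | h | h
  · exfalso
    refine fix_a_up (X := Xᵒᵈ) (m := Aut.dual m) (g := Aut.dual g) (u := Aut.dual u)
      (l := Aut.dual l) (a := Aut.dual a) (m' := Aut.dual m') (g' := Aut.dual g')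
      (x := OrderDual.toDual x) hp ?_ ?_ ?_ hl hu h
    · rw [run_map, h1]
    · rw [← map_mul, run_map, h2]
    · rcases hK with hK | hK
      · left; rw [← map_mul, hK]; simp only [map_mul, map_inv]
      · right; rw [← map_mul, hK]; simp only [map_mul, map_inv]
  · exact h
  · exact absurd h (fix_a_up hp h1 h2 hK hl hu)

end fixed

end Pool.Agent.K7.H38.TW
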